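import Mathlib
import Pool.Agent.W526.LL.Stm
import Pool.Agent.W526.LL.Red

/-! LL-CU1: the Poincare series. -/

namespace Pool.Agent.W766.LLCU1

open Pool.Agent.W526.LL IsDedekindDomain WithZero Polynomial Topology

/-! ### local facts at a place with a uniformiser -/

section Loc
variable {F : Type} [Field F] [Valued F ℤᵐ⁰] (D : LD F)

theorem w_00 : D.w 0 0 = 0 := by simp [LD.w, LD.al, mul_ij, dg, ws]
theorem w_01 : D.w 0 1 = 1 := by simp [LD.w, LD.al, mul_ij, dg, ws]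
theorem w_10 : D.w 1 0 = D.ϖ := by simp [LD.w, LD.al, mul_ij, dg, ws]
theorem w_11 : D.w 1 1 = 0 := by simp [LD.w, LD.al, mul_ij, dg, ws]

theorem w_sq : D.w * D.w = D.z := by
  apply ext4 <;> rw [mul_ij] <;> simp [w_00, w_01, w_10, w_11, LD.z, sc]

theorem w_pow (j : ℤ) : D.z ^ j = D.w ^ (2 * j) := by
  rw [← w_sq, ← pow_two, zpow_mul]
  norm_cast

theorem dt_w : dt D.w = -D.ϖ := by simp [dt, w_00, w_01, w_10, w_11]

theorem v_dt_w : Valued.v (dt D.w) = exp (-1 : ℤ) := by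
  rw [dt_w, Valuation.map_neg, D.hϖ]

/-- conjugation by `w` -/
theorem w_mul_gl2 (k : GL (Fin 2) F) : D.w * k = gl2 (k 1 1) (k 1 0 * D.ϖ⁻¹) (D.ϖ * k 0 1) (k 0 0) (by
      have h := dt_ne_zero k
      have hw := D.ne
      intro h0
      apply h
      have : dt k = k 1 1 * k 0 0 - k 1 0 * D.ϖ⁻¹ * (D.ϖ * k 0 1) := by
        simp only [dt]
        field_simp
      rw [this, h0]) * D.w := by
  have hw := D.ne
  apply ext4 <;> rw [mul_ij, mul_ij] <;> simp [w_00, w_01, w_10, w_11]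
  · field_simp
  · ring

theorem conj_mem {k : GL (Fin 2) F} (hk : k ∈ Iw F) : D.w * k * D.w⁻¹ ∈ Iw F := by
  rw [w_mul_gl2, mul_assoc, mul_inv_cancel, mul_one]
  obtain ⟨⟨h1, h2⟩, h3⟩ := hk
  have hw := D.hϖ
  have hlt : Valued.v (k 1 0) ≤ exp (-1 : ℤ) := by
    rcases eq_or_ne (Valued.v (k 1 0)) 0 with h0 | h0
    · rw [h0]; exact zero_le
    · obtain ⟨m, hm⟩ : ∃ m : ℤ, Valued.v (k 1 0) = exp m := ⟨_, (exp_log h0).symm⟩
      rw [hm] at h3 ⊢
      rw [← exp_zero, exp_lt_exp] at h3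
      rw [exp_le_exp]; omega
  refine ⟨⟨?_, ?_⟩, ?_⟩
  · intro i j
    fin_cases i <;> fin_cases j
    · exact h1 1 1
    · show Valued.v (k 1 0 * D.ϖ⁻¹) ≤ 1
      rw [map_mul, map_inv₀, hw]
      calc Valued.v (k 1 0) * (exp (-1 : ℤ))⁻¹ ≤ exp (-1 : ℤ) * (exp (-1 : ℤ))⁻¹ :=
            mul_le_mul_left hlt _
        _ = 1 := mul_inv_cancel₀ exp_ne_zero
    · show Valued.v (D.ϖ * k 0 1) ≤ 1
      rw [map_mul, hw]
      refine (mul_le_mul' (le_refl _) (h1 0 1)).trans ?_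
      rw [mul_one, ← exp_zero, exp_le_exp]; omega
    · exact h1 0 0
  · show Valued.v (k 1 1 * k 0 0 - k 1 0 * D.ϖ⁻¹ * (D.ϖ * k 0 1)) = 1
    have : k 1 1 * k 0 0 - k 1 0 * D.ϖ⁻¹ * (D.ϖ * k 0 1) = dt k := by
      have hw := D.ne
      simp only [dt]; field_simp
    rw [this]; exact h2
  · show Valued.v (D.ϖ * k 0 1) < 1
    rw [map_mul, hw]
    refine lt_of_le_of_lt (mul_le_mul' (le_refl _) (h1 0 1)) ?_
    rw [mul_one, ← exp_zero, exp_lt_exp]; omega

theorem z_comm (g : GL (Fin 2) F) : D.z * g = g * D.z := sc_comm _ _ _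

theorem conj_mem' {k : GL (Fin 2) F} (hk : k ∈ Iw F) : D.w⁻¹ * k * D.w ∈ Iw F := by
  have h := conj_mem D hk
  have e : D.w⁻¹ * k * D.w = D.w * k * D.w⁻¹ := by
    have h1 : k * D.z = D.z * k := (z_comm D k).symm
    rw [← w_sq] at h1
    have h2 : D.w⁻¹ * (k * (D.w * D.w)) * D.w⁻¹ = D.w⁻¹ * (D.w * D.w * k) * D.w⁻¹ := by rw [h1]
    simpa [mul_assoc] using h2
  rw [e]; exact h

theorem conj_iff {k : GL (Fin 2) F} : D.w * k * D.w⁻¹ ∈ Iw F ↔ k ∈ Iw F := by
  constructor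
  · intro h
    have := conj_mem' D h
    simpa [mul_assoc] using this
  · exact conj_mem D

theorem conj_pow {k : GL (Fin 2) F} (hk : k ∈ Iw F) (m : ℤ) : D.w ^ m * k * (D.w ^ m)⁻¹ ∈ Iw F := by
  have hn : ∀ n : ℕ, ∀ k ∈ Iw F, D.w ^ n * k * (D.w ^ n)⁻¹ ∈ Iw F := by
    intro n
    induction n with
    | zero => intro k hk; simpa using hk
    | succ n ih =>
      intro k hk
      have := ih _ (conj_mem D hk)
      rw [pow_succ]
      simpa [mul_assoc, mul_inv_rev] using this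
  have hn' : ∀ n : ℕ, ∀ k ∈ Iw F, (D.w ^ n)⁻¹ * k * D.w ^ n ∈ Iw F := by
    intro n
    induction n with
    | zero => intro k hk; simpa using hk
    | succ n ih =>
      intro k hk
      have := conj_mem' D (ih _ hk)
      rw [pow_succ]
      simpa [mul_assoc, mul_inv_rev] using this
  rcases m with n | n
  · simpa using hn n k hk
  · have := hn' (n + 1) k hk
    simpa [zpow_negSucc] using this

theorem A_iff (g : GL (Fin 2) F) :
    (∃ j : ℤ, D.z ^ j * g ∈ Iw F) ↔ ∃ j : ℤ, D.w ^ (2 * j) * g ∈ Iw F := by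
  simp_rw [w_pow]

theorem B_iff (g : GL (Fin 2) F) :
    (∃ j : ℤ, D.z ^ j * g * D.w ∈ Iw F) ↔ ∃ j : ℤ, D.w ^ (2 * j + 1) * g ∈ Iw F := by
  apply exists_congr
  intro j
  rw [w_pow, ← conj_iff D]
  have : D.w * (D.w ^ (2 * j) * g * D.w) * D.w⁻¹ = D.w ^ (2 * j + 1) * g := by
    rw [zpow_add, zpow_one]
    have h : D.w * D.w ^ (2 * j) = D.w ^ (2 * j) * D.w := (Commute.self_zpow D.w (2 * j)).eq
    calc D.w * (D.w ^ (2 * j) * g * D.w) * D.w⁻¹ = (D.w * D.w ^ (2 * j)) * g := by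
          simp [mul_assoc]
      _ = _ := by rw [h]
  rw [this]

theorem v_dt_zpow (m : ℤ) : Valued.v (dt (D.w ^ m)) = exp (-m) := by
  have hn : ∀ n : ℕ, Valued.v (dt (D.w ^ n)) = exp (-(n : ℤ)) := by
    intro n
    induction n with
    | zero => simp
    | succ n ih =>
      rw [pow_succ, dt_mul, map_mul, ih, v_dt_w, ← exp_add]
      congr 1
      push_cast; ring
  rcases m with n | n
  · simpa using hn n
  · rw [zpow_negSucc, dt_inv, map_inv₀, hn, ← exp_neg]
    congr 1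

theorem v_dt_of_mem {g : GL (Fin 2) F} {m : ℤ} (h : D.w ^ m * g ∈ Iw F) :
    Valued.v (dt g) = exp m := by
  have h1 : Valued.v (dt (D.w ^ m * g)) = 1 := h.1.2
  rw [dt_mul, map_mul, v_dt_zpow] at h1
  have h2 : exp m * (exp (-m) * Valued.v (dt g)) = exp m * 1 := by rw [h1]
  rw [← mul_assoc, ← exp_add, add_neg_cancel, exp_zero, one_mul, mul_one] at h2
  exact h2

theorem uniq_m {g : GL (Fin 2) F} {m m' : ℤ} (h : D.w ^ m * g ∈ Iw F) (h' : D.w ^ m' * g ∈ Iw F) :
    m = m' := by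
  have h1 := v_dt_of_mem D h
  have h2 := v_dt_of_mem D h'
  rw [h1] at h2
  exact exp_injective h2

/-- if `x` and `δ x` are in the normaliser group and `|det δ| = 1` then `δ` is in `Iw` -/
theorem delta_mem {x δ : GL (Fin 2) F} {m m' : ℤ} (h : D.w ^ m * x ∈ Iw F)
    (h' : D.w ^ m' * (δ * x) ∈ Iw F) (hd : Valued.v (dt δ) = 1) : δ ∈ Iw F := by
  have e1 := v_dt_of_mem D h
  have e2 := v_dt_of_mem D h'
  rw [dt_mul, map_mul, hd, one_mul, e1] at e2
  have hm : m = m' := exp_injective e2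
  subst hm
  have h3 := mul_mem h' (inv_mem h)
  have e3 : D.w ^ m * (δ * x) * (D.w ^ m * x)⁻¹ = D.w ^ m * δ * (D.w ^ m)⁻¹ := by
    simp [mul_assoc, mul_inv_rev]
  rw [e3] at h3
  have h4 := conj_pow D h3 (-m)
  have e4 : D.w ^ (-m) * (D.w ^ m * δ * (D.w ^ m)⁻¹) * (D.w ^ (-m))⁻¹ = δ := by
    simp [mul_assoc, zpow_neg]
  rwa [e4] at h4

end Loc

/-! ### the sign at infinity -/

theorem ep_even {g : GL (Fin 2) (Kv none)} {m : ℤ} (hm : Even m)
    (h : Dinf.w ^ m * g ∈ Iw (Kv none)) : ep g = 1 := by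
  obtain ⟨j, rfl⟩ := hm
  unfold ep
  rw [if_pos]
  rw [A_iff]
  exact ⟨j, by rwa [two_mul]⟩

theorem ep_odd {g : GL (Fin 2) (Kv none)} {m : ℤ} (hm : Odd m)
    (h : Dinf.w ^ m * g ∈ Iw (Kv none)) : ep g = -1 := by
  obtain ⟨j, rfl⟩ := hm
  unfold ep
  rw [if_neg, if_pos]
  · rw [B_iff]; exact ⟨j, h⟩
  · rw [A_iff]
    rintro ⟨j', hj'⟩
    have := uniq_m Dinf h hj'
    omega

theorem ep_ne (g : GL (Fin 2) (Kv none)) (h : ep g ≠ 0) : ∃ m : ℤ, Dinf.w ^ m * g ∈ Iw (Kv none) := by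
  by_contra hcon
  push Not at hcon
  apply h
  unfold ep
  rw [if_neg, if_neg]
  · rw [B_iff]; rintro ⟨j, hj⟩; exact hcon _ hj
  · rw [A_iff]; rintro ⟨j, hj⟩; exact hcon _ hj

theorem ep_zero (g : GL (Fin 2) (Kv none)) (h : ∀ m : ℤ, Dinf.w ^ m * g ∉ Iw (Kv none)) :
    ep g = 0 := by
  by_contra hcon
  obtain ⟨m, hm⟩ := ep_ne g hcon
  exact h m hm

theorem ep_mul_iw (g k : GL (Fin 2) (Kv none)) (hk : k ∈ Iw (Kv none)) : ep (g * k) = ep g := by
  have h : ∀ m : ℤ, Dinf.w ^ m * (g * k) ∈ Iw (Kv none) ↔ Dinf.w ^ m * g ∈ Iw (Kv none) := by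
    intro m
    rw [← mul_assoc]
    exact Subgroup.mul_mem_cancel_right _ hk
  by_cases hm : ∃ m : ℤ, Dinf.w ^ m * g ∈ Iw (Kv none)
  · obtain ⟨m, hm⟩ := hm
    rcases Int.even_or_odd m with he | ho
    · rw [ep_even he hm, ep_even he ((h m).2 hm)]
    · rw [ep_odd ho hm, ep_odd ho ((h m).2 hm)]
  · push Not at hm
    rw [ep_zero g hm, ep_zero (g * k) (fun m hmm => hm m ((h m).1 hmm))]

theorem ep_mul_w (g : GL (Fin 2) (Kv none)) : ep (g * Dinf.w) = - ep g := by
  have h : ∀ m : ℤ, Dinf.w ^ m * (g * Dinf.w) ∈ Iw (Kv none) ↔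
      Dinf.w ^ (m + 1) * g ∈ Iw (Kv none) := by
    intro m
    rw [← conj_iff Dinf]
    have : Dinf.w * (Dinf.w ^ m * (g * Dinf.w)) * Dinf.w⁻¹ = Dinf.w ^ (m + 1) * g := by
      rw [zpow_add, zpow_one]
      have h : Dinf.w * Dinf.w ^ m = Dinf.w ^ m * Dinf.w := (Commute.self_zpow Dinf.w m).eq
      calc Dinf.w * (Dinf.w ^ m * (g * Dinf.w)) * Dinf.w⁻¹ = (Dinf.w * Dinf.w ^ m) * g := by
            simp [mul_assoc]
        _ = _ := by rw [h]
    rw [this]
  by_cases hm : ∃ m : ℤ, Dinf.w ^ m * g ∈ Iw (Kv none)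
  · obtain ⟨m, hm⟩ := hm
    have hm' : Dinf.w ^ (m - 1) * (g * Dinf.w) ∈ Iw (Kv none) := by
      rw [h, sub_add_cancel]; exact hm
    rcases Int.even_or_odd m with he | ho
    · rw [ep_even he hm, ep_odd (by rw [Int.odd_sub']; simp [he] : Odd (m - 1)) hm']
    · rw [ep_odd ho hm, ep_even (by rw [Int.even_sub']; simp [ho] : Even (m - 1)) hm']
      norm_num
  · push Not at hm
    rw [ep_zero g hm, ep_zero (g * Dinf.w) (fun m hmm => hm _ ((h m).1 hmm))]
    norm_num

theorem ep_one : ep 1 = 1 := ep_even (m := 0) (by simp) (by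
  rw [zpow_zero, one_mul]; exact one_mem _)

/-! ### global facts -/

theorem locK_ij (p : Pl) (δ : GL (Fin 2) KK) (i j : Fin 2) : locK p δ i j = cmap p (δ i j) := rfl

theorem dt_locK (p : Pl) (δ : GL (Fin 2) KK) : dt (locK p δ) = cmap p (dt δ) := by
  simp only [dt, locK_ij, map_sub, map_mul]

/-- the determinant of a matrix integral at all finite places, with its inverse, is `1` -/
theorem dt_eq_one (hpol : S_pol) (δ : GL (Fin 2) KK)
    (h : ∀ v, locK (some v) δ ∈ maxK (Kv (some v))) : dt δ = 1 := by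
  have h1 : ∀ v, Valued.v (cmap (some v) (dt δ)) = 1 := by
    intro v
    rw [← dt_locK]; exact (h v).2
  obtain ⟨P, hP⟩ := hpol.1 (dt δ) (fun v => (h1 v).le)
  obtain ⟨Q, hQ⟩ := hpol.1 (dt δ)⁻¹ (fun v => by rw [map_inv₀, map_inv₀, h1 v, inv_one])
  have hne := dt_ne_zero δ
  have hPQ : ofPoly (P * Q) = ofPoly 1 := by
    change algebraMap (ZMod 2)[X] KK (P * Q) = algebraMap (ZMod 2)[X] KK 1
    rw [map_mul, map_one]
    change ofPoly P * ofPoly Q = 1
    rw [← hP, ← hQ, mul_inv_cancel₀ hne]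
  have hPQ' : P * Q = 1 := (RatFunc.algebraMap_injective (ZMod 2)) hPQ
  have hu : IsUnit P := IsUnit.of_mul_eq_one Q hPQ'
  obtain ⟨c, hc, hc2⟩ := Polynomial.isUnit_iff.1 hu
  have h2 : ∀ z : ZMod 2, IsUnit z → z = 1 := by decide
  rw [hP, ← hc2, h2 c hc]
  change algebraMap (ZMod 2)[X] KK (C 1) = 1
  rw [map_one, map_one]

/-- the set `D` of matrices integral everywhere -/
def DD : Set (GL (Fin 2) KK) :=
  {δ | (∀ v, locK (some v) δ ∈ maxK (Kv (some v))) ∧ locK none δ ∈ Iw (Kv none)}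

theorem DD_finite (hpol : S_pol) : DD.Finite := by
  have h0 := hpol.2.1 0
  set S : Set KK := {x : KK | (∀ v, Valued.v (cmap (some v) x) ≤ 1) ∧
    Valued.v (cmap none x) ≤ exp 0} with hS
  have hfin : (Set.pi Set.univ (fun _ : Fin 2 × Fin 2 => S)).Finite := Set.Finite.pi fun _ => h0
  refine Set.Finite.of_finite_image (f := fun δ : GL (Fin 2) KK => fun ij : Fin 2 × Fin 2 =>
    δ ij.1 ij.2) (hfin.subset ?_) ?_
  · rintro _ ⟨δ, hδ, rfl⟩ ⟨i, j⟩ _
    refine ⟨fun v => ?_, ?_⟩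
    · exact (hδ.1 v).1 i j
    · rw [exp_zero]; exact hδ.2.1.1 i j
  · intro δ _ δ' _ h
    have h1 : ∀ i j, δ i j = δ' i j := fun i j => congrFun h (i, j)
    exact ext4 (h1 _ _) (h1 _ _) (h1 _ _) (h1 _ _)

theorem phi_ne {γ : GL (Fin 2) KK} {g : GA} (h : phi γ g ≠ 0) :
    (∀ v, locK (some v) γ * g (some v) ∈ maxK (Kv (some v))) ∧ ep (locK none γ * g none) ≠ 0 := by
  unfold phi at h
  constructor
  · by_contra hcon
    rw [if_neg hcon] at h
    exact h rfl
  · intro h0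
    apply h
    rw [h0]
    simp

theorem delta_DD (hpol : S_pol) {γ γ₀ : GL (Fin 2) KK} {g : GA} (h : phi γ g ≠ 0)
    (h0 : phi γ₀ g ≠ 0) : γ * γ₀⁻¹ ∈ DD := by
  obtain ⟨h1, h2⟩ := phi_ne h
  obtain ⟨h3, h4⟩ := phi_ne h0
  have hfin : ∀ v, locK (some v) (γ * γ₀⁻¹) ∈ maxK (Kv (some v)) := by
    intro v
    have := mul_mem (h1 v) (inv_mem (h3 v))
    have e : locK (some v) γ * g (some v) * (locK (some v) γ₀ * g (some v))⁻¹
        = locK (some v) (γ * γ₀⁻¹) := by
      rw [map_mul, map_inv]; simp [mul_assoc, mul_inv_rev]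
    rwa [e] at this
  refine ⟨hfin, ?_⟩
  obtain ⟨m, hm⟩ := ep_ne _ h2
  obtain ⟨m0, hm0⟩ := ep_ne _ h4
  have hd : Valued.v (dt (locK none (γ * γ₀⁻¹))) = 1 := by
    rw [dt_locK, dt_eq_one hpol _ hfin, map_one, map_one]
  apply delta_mem Dinf hm0 _ hd (m' := m)
  have e : locK none (γ * γ₀⁻¹) * (locK none γ₀ * g none) = locK none γ * g none := by
    rw [map_mul, map_inv]; simp [mul_assoc]
  rw [e]; exact hm

theorem finSupp (hpol : S_pol) : FinSupp := by
  intro g
  by_cases h : ∃ γ₀, phi γ₀ g ≠ 0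
  · obtain ⟨γ₀, h0⟩ := h
    refine ((DD_finite hpol).image (fun δ => δ * γ₀)).subset ?_
    intro γ hγ
    exact ⟨γ * γ₀⁻¹, delta_DD hpol hγ h0, by simp⟩
  · push Not at h
    have : (Function.support fun γ : GL (Fin 2) KK => phi γ g) = ∅ := by
      ext γ; simp [h γ]
    rw [this]; exact Set.finite_empty

theorem phi_congr {γ γ' : GL (Fin 2) KK} {g g' : GA}
    (h1 : ∀ v, locK (some v) γ' * g' (some v) ∈ maxK (Kv (some v)) ↔
      locK (some v) γ * g (some v) ∈ maxK (Kv (some v)))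
    (h2 : (∀ v, locK (some v) γ * g (some v) ∈ maxK (Kv (some v))) →
      sg (red (locK (some pl0) γ' * g' (some pl0))) * ch (red (locK (some pl1) γ' * g' (some pl1))) *
        ep (locK none γ' * g' none) =
      sg (red (locK (some pl0) γ * g (some pl0))) * ch (red (locK (some pl1) γ * g (some pl1))) *
        ep (locK none γ * g none)) : phi γ' g' = phi γ g := by
  unfold phi
  by_cases h : ∀ v, locK (some v) γ * g (some v) ∈ maxK (Kv (some v))
  · rw [if_pos h, if_pos (fun v => (h1 v).2 (h v)), h2 h]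
  · rw [if_neg h, if_neg (fun h' => h (fun v => (h1 v).1 (h' v)))]

theorem leftInv : LeftInv fc := by
  intro γ₀ g g' h
  have e : ∀ γ, phi γ g' = phi (γ * γ₀) g := by
    intro γ
    have h1 : ∀ p, locK p γ * g' p = locK p (γ * γ₀) * g p := by
      intro p; rw [h p, map_mul, mul_assoc]
    apply phi_congr
    · intro v; rw [h1]
    · intro _; rw [h1, h1, h1]
  unfold fc
  rw [finsum_congr e]
  exact finsum_comp_equiv (Equiv.mulRight γ₀) (f := fun γ => phi γ g)

/-- reduction only depends on the class modulo the first congruence subgroup -/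
theorem red_mul_Kn {p : Pl} {x k : GL (Fin 2) (Kv p)} (hx : x ∈ maxK (Kv p))
    (hk : k ∈ Kn (Kv p) 1) : red (x * k) = red x := by
  ext i j
  show bit ((x * k) i j) = bit (x i j)
  have hlt : Valued.v ((x * k) i j - x i j) < 1 := by
    have e : (x * k) i j - x i j = x i 0 * (k 0 j - (1 : GL (Fin 2) (Kv p)) 0 j)
        + x i 1 * (k 1 j - (1 : GL (Fin 2) (Kv p)) 1 j) := by
      have h1 : x i j = x i 0 * (1 : GL (Fin 2) (Kv p)) 0 j + x i 1 * (1 : GL (Fin 2) (Kv p)) 1 j := by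
        rw [← mul_ij, mul_one]
      rw [mul_ij]
      linear_combination (-1 : Kv p) * h1
    rw [e]
    refine Valued.v.map_add_lt ?_ ?_ <;> rw [map_mul]
    · refine lt_of_le_of_lt (mul_le_mul' (hx.1 _ _) (hk.2 _ _)) ?_
      rw [one_mul, ← exp_zero, exp_lt_exp]; norm_num
    · refine lt_of_le_of_lt (mul_le_mul' (hx.1 _ _) (hk.2 _ _)) ?_
      rw [one_mul, ← exp_zero, exp_lt_exp]; norm_num
  unfold bit
  have hiff : Valued.v ((x * k) i j) < 1 ↔ Valued.v (x i j) < 1 := by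
    constructor
    · intro h
      have e : x i j = (x * k) i j - ((x * k) i j - x i j) := by ring
      rw [e]
      exact (Valuation.map_sub _ _ _).trans_lt (max_lt h hlt)
    · intro h
      have e : (x * k) i j = x i j + ((x * k) i j - x i j) := by ring
      rw [e]
      exact (Valuation.map_add _ _ _).trans_lt (max_lt h hlt)
  by_cases h : Valued.v (x i j) < 1
  · rw [if_pos h, if_pos (hiff.2 h)]
  · rw [if_neg h, if_neg (fun h' => h (hiff.1 h'))]

/-- the open subgroup -/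
def UU : Subgroup GA where
  carrier := {k | (∀ p, k p ∈ maxK (Kv p)) ∧ k none ∈ Iw (Kv none) ∧
    k (some pl0) ∈ Kn (Kv (some pl0)) 1 ∧ k (some pl1) ∈ Kn (Kv (some pl1)) 1}
  mul_mem' := by
    rintro a b ⟨a1, a2, a3, a4⟩ ⟨b1, b2, b3, b4⟩
    refine ⟨fun p => ?_, ?_, ?_, ?_⟩
    · rw [mul_apply]; exact mul_mem (a1 p) (b1 p)
    · rw [mul_apply]; exact mul_mem a2 b2
    · rw [mul_apply]; exact mul_mem a3 b3
    · rw [mul_apply]; exact mul_mem a4 b4
  one_mem' := by
    refine ⟨fun p => ?_, ?_, ?_, ?_⟩ <;> rw [one_apply] <;> exact one_mem _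
  inv_mem' := by
    rintro a ⟨a1, a2, a3, a4⟩
    refine ⟨fun p => ?_, ?_, ?_, ?_⟩
    · rw [inv_apply]; exact inv_mem (a1 p)
    · rw [inv_apply]; exact inv_mem a2
    · rw [inv_apply]; exact inv_mem a3
    · rw [inv_apply]; exact inv_mem a4

theorem UU_open (hopen : S_open) : IsOpen (UU : Set GA) := by
  have hop : ∀ p, (∀ n, IsOpen (Kn (Kv p) n : Set (GL (Fin 2) (Kv p)))) ∧
      IsOpen (Iw (Kv p) : Set (GL (Fin 2) (Kv p))) ∧
      IsOpen (maxK (Kv p) : Set (GL (Fin 2) (Kv p))) := by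
    intro p
    obtain ⟨a, ha⟩ := exists_unif_K p
    have := hopen (Kv p) (cmap p a) ha
    exact ⟨this.1, this.2.1, this.2.2.1⟩
  have e : (UU : Set GA) = {k : GA | ∀ p, k.1 p ∈ (maxK (Kv p) : Set (GL (Fin 2) (Kv p)))} ∩
      ((fun k : GA => k none) ⁻¹' (Iw (Kv none) : Set (GL (Fin 2) (Kv none))) ∩
      ((fun k : GA => k (some pl0)) ⁻¹' (Kn (Kv (some pl0)) 1 : Set (GL (Fin 2) (Kv (some pl0)))) ∩
      (fun k : GA => k (some pl1)) ⁻¹' (Kn (Kv (some pl1)) 1 : Set (GL (Fin 2) (Kv (some pl1)))))) := by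
    ext k; exact Iff.rfl
  rw [e]
  refine IsOpen.inter ?_ (IsOpen.inter ?_ (IsOpen.inter ?_ ?_))
  · exact RestrictedProduct.isOpen_forall_mem (fun p => (hop p).2.2)
  · exact (hop none).2.1.preimage (RestrictedProduct.continuous_eval none)
  · exact ((hop (some pl0)).1 1).preimage (RestrictedProduct.continuous_eval (some pl0))
  · exact ((hop (some pl1)).1 1).preimage (RestrictedProduct.continuous_eval (some pl1))

theorem rightSm (hopen : S_open) : RightSm fc := by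
  refine ⟨UU, UU_open hopen, ?_⟩
  intro k hk g
  obtain ⟨k1, k2, k3, k4⟩ := hk
  unfold fc
  apply finsum_congr
  intro γ
  apply phi_congr
  · intro v
    rw [mul_apply, ← mul_assoc]
    exact Subgroup.mul_mem_cancel_right _ (k1 _)
  · intro h
    simp only [mul_apply, ← mul_assoc]
    rw [red_mul_Kn (h pl0) k3, red_mul_Kn (h pl1) k4, ep_mul_iw _ _ k2]

theorem iw_inv (g : GA) (k : GL (Fin 2) (Kv none)) (hk : k ∈ Iw (Kv none)) :
    fc (g * inj none k) = fc g := by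
  unfold fc
  apply finsum_congr
  intro γ
  have hne : ∀ v : HeightOneSpectrum (ZMod 2)[X], (g * inj none k) (some v) = g (some v) := by
    intro v
    rw [mul_apply, inj_ne (by simp), mul_one]
  apply phi_congr
  · intro v; rw [hne]
  · intro h
    rw [hne, hne]
    simp only [mul_apply, inj_same, ← mul_assoc]
    rw [ep_mul_iw _ _ hk]

theorem w_anti (g : GA) : fc (g * inj none Dinf.w) = - fc g := by
  unfold fc
  rw [← finsum_neg_distrib]
  apply finsum_congr
  intro γ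
  have hne : ∀ v : HeightOneSpectrum (ZMod 2)[X], (g * inj none Dinf.w) (some v) = g (some v) := by
    intro v
    rw [mul_apply, inj_ne (by simp), mul_one]
  unfold phi
  by_cases h : ∀ v, locK (some v) γ * g (some v) ∈ maxK (Kv (some v))
  · rw [if_pos h, if_pos (fun v => by rw [hne]; exact h v), hne, hne]
    have : ep (locK none γ * (g * inj none Dinf.w) none) = - ep (locK none γ * g none) := by
      rw [mul_apply, inj_same, ← mul_assoc]
      exact ep_mul_w _
    rw [this]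
    push_cast; ring
  · rw [if_neg h, if_neg (fun h' => h (fun v => by rw [← hne]; exact h' v)), neg_zero]

theorem int01 (hpol : S_pol) (x : KK) (h1 : ∀ v, Valued.v (cmap (some v) x) ≤ 1)
    (h2 : Valued.v (cmap none x) ≤ 1) : x = 0 ∨ x = 1 := by
  rcases res_inf _ h2 with h | h
  · left; exact hpol.2.2.1 x h1 h
  · right
    have := hpol.2.2.1 (x - 1) (fun v => by
      rw [map_sub, map_one]
      exact (Valuation.map_sub _ _ _).trans (max_le (h1 v) (by rw [map_one])))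
      (by rw [map_sub, map_one]; exact h)
    exact sub_eq_zero.1 this

theorem fc_one (hpol : S_pol) : fc 1 ≠ 0 := by
  have hphi1 : phi 1 1 = 2 := by
    unfold phi
    rw [if_pos]
    · simp only [map_one, one_apply, mul_one, red_one, ep_one]
      have e1 : sg 1 = 1 := by decide
      have e2 : ch 1 = 2 := by decide
      rw [e1, e2]; norm_num
    · intro v
      rw [map_one, one_apply, mul_one]; exact one_mem _
  have hphiu : ∀ p : Pl, red (p := p) (up 1) = !![1, 1; 0, 1] := by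
    intro p
    ext i j
    show bit ((up 1 : GL (Fin 2) (Kv p)) i j) = _
    fin_cases i <;> fin_cases j <;> simp [up]
  have hlocu : ∀ p : Pl, locK p (up 1) = up 1 := by
    intro p
    apply ext4 <;> rw [locK_ij] <;> simp [up]
  have hphiu1 : phi (up 1) 1 = 0 := by
    unfold phi
    simp only [hlocu, one_apply, mul_one, hphiu]
    have : ch !![1, 1; 0, 1] = 0 := by decide
    rw [this]
    simp
  have hone : ∀ γ : GL (Fin 2) KK, γ ≠ 1 → phi γ 1 = 0 := by
    intro γ hγ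
    by_contra hne
    have h1 : phi 1 1 ≠ 0 := by rw [hphi1]; norm_num
    have hD := delta_DD hpol hne h1
    rw [inv_one, mul_one] at hD
    obtain ⟨hf, hi⟩ := hD
    have hent : ∀ i j, γ i j = 0 ∨ γ i j = 1 := fun i j =>
      int01 hpol _ (fun v => (hf v).1 i j) (hi.1.1 i j)
    have hc : γ 1 0 = 0 := hpol.2.2.1 _ (fun v => (hf v).1 1 0) hi.2
    have hdt := dt_eq_one hpol γ hf
    simp only [dt, hc, mul_zero, sub_zero] at hdt
    have ha : γ 0 0 = 1 := by
      rcases hent 0 0 with h | h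
      · rw [h, zero_mul] at hdt; exact absurd hdt zero_ne_one
      · exact h
    have hd : γ 1 1 = 1 := by
      rw [ha, one_mul] at hdt; exact hdt
    rcases hent 0 1 with h | h
    · apply hγ
      apply ext4
      · rw [ha]; rfl
      · rw [h]; rfl
      · rw [hc]; rfl
      · rw [hd]; rfl
    · apply hne
      have : γ = up 1 := by
        apply ext4
        · rw [ha]; rfl
        · rw [h]; rfl
        · rw [hc]; rfl
        · rw [hd]; rfl
      rw [this]; exact hphiu1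
  unfold fc
  rw [finsum_eq_single _ 1 hone, hphi1]
  norm_num

theorem main (hopen : S_open) (hpol : S_pol) : S_cu1 :=
  ⟨finSupp hpol, leftInv, rightSm hopen, fun g k hk => iw_inv g k hk, w_anti, fc_one hpol⟩

end Pool.Agent.W766.LLCU1
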