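import Pool.Agent.Results.MP_efa496_an.OverSaturation

set_option autoImplicit false

namespace Pool.Agent.W766.OverSat

open Topology Filter Pool.Agent.Results.MP_efa496_an.OverSaturation

/-- The module `II` is not over-saturated (proof taken from the starting result `OverSaturation`). -/
theorem not_over : ¬ OverSaturated PP II 2 := by
  intro hover
  obtain ⟨C₁, hC1, hkey⟩ := Pool.Agent.Helper428.PL.key_bound
  have hC0 : 0 < C₁ := by linarith
  have hsat := hover FF
  obtain ⟨B, hB⟩ := hsat VV VV_nhds (fun z => ((1 / (4 * C₁) : ℝ) : ℂ) * Complex.exp z)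
    (Complex.differentiable_exp.const_mul _) (by
      intro z
      -- lower bound for the majorant
      obtain ⟨ρ, hρ⟩ : ∃ ρ : ℝ, ρ = ‖ff z 0‖ / (C₁ * Real.exp (√(‖z‖ + 1) / 2)) := ⟨_, rfl⟩
      have hden : 0 < C₁ * Real.exp (√(‖z‖ + 1) / 2) := by positivity
      have hρ0 : 0 ≤ ρ := by rw [hρ]; positivity
      have hfirst : ‖((1 / (4 * C₁) : ℝ) : ℂ) * Complex.exp z‖ ≤ 1 + ρ := by
        rw [norm_mul, Complex.norm_real, Complex.norm_exp, Real.norm_of_nonneg (by positivity)]
        have hδ : 1 / (4 * C₁) ≤ 1 / 4 := by
          apply one_div_le_one_div_of_le (by norm_num)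
          linarith
        have hδ0 : 0 < 1 / (4 * C₁) := by positivity
        rcases le_or_gt z.re 0 with hz | hz
        · have : Real.exp z.re ≤ 1 := Real.exp_le_one_iff.2 hz
          nlinarith [Real.exp_pos z.re]
        · rcases lt_or_ge ‖z‖ 1 with hz1 | hz1
          · have h1 : z.re ≤ 1 := ((le_abs_self _).trans (Complex.abs_re_le_norm z)).trans hz1.le
            have h2 : Real.exp z.re ≤ 4 := by
              have := Real.exp_one_lt_d9
              have h3 := Real.exp_le_exp.2 h1
              linarith
            nlinarith [Real.exp_pos z.re]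
          · have h1 := Pool.Agent.Helper428.CoshSqrt.cs_lower z hz.le
            have h2 : √(‖z‖ + 1) / 2 ≤ √(‖z‖ / 2) := by
              apply Real.le_sqrt_of_sq_le
              rw [div_pow, Real.sq_sqrt (by positivity)]
              linarith
            have h3 : Real.exp (√(‖z‖ / 2)) / 4 ≤ Real.sinh (√(‖z‖ / 2)) := by
              rw [Real.sinh_eq]
              have h4 : 1 / 2 ≤ √(‖z‖ / 2) := by
                apply Real.le_sqrt_of_sq_le
                norm_num
                linarith
              have h5 : 2 ≤ Real.exp (√(‖z‖ / 2)) * Real.exp (√(‖z‖ / 2)) := by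
                rw [← Real.exp_add]
                have := Real.add_one_le_exp (√(‖z‖ / 2) + √(‖z‖ / 2))
                linarith
              have h6 : Real.exp (-√(‖z‖ / 2)) * Real.exp (√(‖z‖ / 2)) = 1 := by
                rw [← Real.exp_add]; simp
              have h7 := Real.exp_pos (√(‖z‖ / 2))
              have h8 : Real.exp (-√(‖z‖ / 2)) ≤ Real.exp (√(‖z‖ / 2)) / 2 := by
                have : Real.exp (-√(‖z‖ / 2)) * Real.exp (√(‖z‖ / 2)) ≤
                    (Real.exp (√(‖z‖ / 2)) / 2) * Real.exp (√(‖z‖ / 2)) := by
                  rw [h6]; linarith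
                exact le_of_mul_le_mul_right this h7
              linarith
            have h4 : ‖ff z 0‖ = Real.exp z.re * ‖Pool.Agent.Helper428.CoshSqrt.cs z‖ := by
              have : ff z 0 = Complex.exp z * Pool.Agent.Helper428.CoshSqrt.cs z := by simp [ff]
              rw [this, norm_mul, Complex.norm_exp]
            have h5 : Real.exp (√(‖z‖ + 1) / 2) ≤ Real.exp (√(‖z‖ / 2)) := Real.exp_le_exp.2 h2
            have h6 : 1 / (4 * C₁) * Real.exp z.re ≤ ρ := by
              rw [hρ, le_div_iff₀ hden, h4]
              calc 1 / (4 * C₁) * Real.exp z.re * (C₁ * Real.exp (√(‖z‖ + 1) / 2))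
                  = Real.exp z.re * (Real.exp (√(‖z‖ + 1) / 2) / 4) := by field_simp
                _ ≤ Real.exp z.re * ‖Pool.Agent.Helper428.CoshSqrt.cs z‖ := by
                    gcongr
                    linarith
            linarith
      have hsecond : ENNReal.ofReal (1 + ρ) ≤ M PP II 2 FF VV z := by
        unfold M
        rw [ENNReal.ofReal_add zero_le_one hρ0, ENNReal.ofReal_one]
        gcongr
        apply le_sInf
        rintro x ⟨u, J, huI, hdet, rfl⟩
        apply ENNReal.ofReal_le_ofReal
        rw [ev_FF]
        -- the elements of `I ∩ V` are slowly growing in the first coordinate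
        have hslow : ∀ s, ‖PP.ev (u s) z 0‖ ≤ C₁ * Real.exp (√(‖z‖ + 1) / 2) := by
          intro s
          have hb7 := fun ζ i => VV_bound (huI s).2 ζ i
          have hdiff : Differentiable ℂ (PP.ev (u s)) := PP.entire (u s)
          apply hkey (fun ζ => PP.ev (u s) ζ 0) (fun ζ => PP.ev (u s) ζ 1)
            (fun ζ => (differentiableAt_pi.1 (hdiff ζ)) 0)
            (fun ζ => (differentiableAt_pi.1 (hdiff ζ)) 1)
          · intro ζ
            have := hb7 ζ 0
            rw [wt_zero] at this
            norm_num at this
            exact this
          · intro ζ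
            have := hb7 ζ 1
            rw [wt_one] at this
            norm_num at this
            exact this
          · exact PP_bound (u s)
          · exact (huI s).1
        have hJ0 : J 0 = 0 ∧ J 1 = 1 := by
          have : J 0 < J 1 := J.strictMono (by decide)
          constructor
          · ext
            have := this
            simp only [Fin.lt_def] at this
            simp
            omega
          · ext
            have := this
            simp only [Fin.lt_def] at this
            simp
            omega
        have hcr : ff z 0 * detU (fun s => PP.ev (u s)) J z =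
            ∑ s, detS (fun s => PP.ev (u s)) ff J s z * PP.ev (u s) z 0 := by
          unfold detU detS
          simp only [Fin.sum_univ_two, Matrix.det_fin_two, Matrix.updateCol_apply, mat, hJ0.1, hJ0.2]
          simp
          ring
        have hff : ff z 0 = ∑ s, detS (fun s => PP.ev (u s)) ff J s z /
            detU (fun s => PP.ev (u s)) J z * PP.ev (u s) z 0 := by
          calc ff z 0 = (ff z 0 * detU (fun s => PP.ev (u s)) J z) /
                detU (fun s => PP.ev (u s)) J z := by field_simp
            _ = _ := by
              rw [hcr, Finset.sum_div]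
              apply Finset.sum_congr rfl
              intro s _
              ring
        unfold cramerSum
        rw [hρ, div_le_iff₀ hden, hff]
        calc ‖∑ s, detS (fun s => PP.ev (u s)) ff J s z /
              detU (fun s => PP.ev (u s)) J z * PP.ev (u s) z 0‖
            ≤ ∑ s, ‖detS (fun s => PP.ev (u s)) ff J s z /
              detU (fun s => PP.ev (u s)) J z * PP.ev (u s) z 0‖ :=
              norm_sum_le _ _
          _ ≤ ∑ s, ‖detS (fun s => PP.ev (u s)) ff J s z /
              detU (fun s => PP.ev (u s)) J z‖ * (C₁ * Real.exp (√(‖z‖ + 1) / 2)) := by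
              apply Finset.sum_le_sum
              intro s _
              rw [norm_mul]
              exact mul_le_mul_of_nonneg_left (hslow s) (norm_nonneg _)
          _ = _ := by rw [Finset.sum_mul]
      exact (ENNReal.ofReal_le_ofReal hfirst).trans hsecond)
  -- the function is unbounded
  obtain ⟨x, hx⟩ := exists_nat_gt (4 * C₁ * B)
  have h1 := hB (x : ℂ)
  rw [norm_mul, Complex.norm_real, Complex.norm_exp, Real.norm_of_nonneg (by positivity),
    Complex.natCast_re] at h1
  have h2 := Real.add_one_le_exp (x : ℝ)
  have h3 : Real.exp x ≤ 4 * C₁ * B := by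
    have h4 : 1 / (4 * C₁) * Real.exp x * (4 * C₁) ≤ B * (4 * C₁) := by gcongr
    have h5 : 1 / (4 * C₁) * Real.exp x * (4 * C₁) = Real.exp x := by field_simp
    linarith
  linarith


end Pool.Agent.W766.OverSat
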