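import Pool.Agent.W839.Ch.Stubs

set_option autoImplicit false
open scoped Classical
open Finset Filter Topology

namespace Pool.Agent.W766.ChES
open Pool.Agent.W839.Ch

/-! ## S_ES -/

/-- scaling to Euclidean space -/
noncomputable def sc {n : ℕ} (d : Fin n → ℝ) : (Fin n → ℝ) →ₗ[ℝ] EuclideanSpace ℝ (Fin n) where
  toFun x := WithLp.toLp 2 (fun v => Real.sqrt (d v) * x v)
  map_add' x y := by
    ext v
    simp [mul_add]
  map_smul' t x := by
    ext v
    simp [mul_left_comm]

lemma sc_apply {n : ℕ} (d : Fin n → ℝ) (x : Fin n → ℝ) (v : Fin n) :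
    sc d x v = Real.sqrt (d v) * x v := rfl

lemma sc_inj {n : ℕ} (d : Fin n → ℝ) (hd : ∀ v, 0 < d v) : Function.Injective (sc d) := by
  intro x y h
  funext v
  have h1 := congrArg (fun z : EuclideanSpace ℝ (Fin n) => z v) h
  simp only [sc_apply] at h1
  exact mul_left_cancel₀ (Real.sqrt_pos.2 (hd v)).ne' h1

lemma sc_inner {n : ℕ} (d : Fin n → ℝ) (hd : ∀ v, 0 < d v) (x y : Fin n → ℝ) :
    inner ℝ (sc d x) (sc d y) = ∑ v, d v * x v * y v := by
  rw [EuclideanSpace.inner_eq_star_dotProduct]
  simp only [dotProduct, Pi.star_apply, star_trivial]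
  apply Finset.sum_congr rfl
  intro v _
  change (Real.sqrt (d v) * y v) * (Real.sqrt (d v) * x v) = _
  have := Real.mul_self_sqrt (hd v).le
  calc (Real.sqrt (d v) * y v) * (Real.sqrt (d v) * x v)
      = (Real.sqrt (d v) * Real.sqrt (d v)) * x v * y v := by ring
    _ = _ := by rw [this]

/-- the operator `D^{-1/2} A D^{-1/2}` -/
noncomputable def Bop {n : ℕ} (A : Fin n → Fin n → ℝ) (d : Fin n → ℝ) :
    EuclideanSpace ℝ (Fin n) →ₗ[ℝ] EuclideanSpace ℝ (Fin n) where
  toFun w := WithLp.toLp 2 (fun u => ∑ v, A u v / (Real.sqrt (d u) * Real.sqrt (d v)) * w v)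
  map_add' x y := by
    ext v
    simp [mul_add, Finset.sum_add_distrib]
  map_smul' t x := by
    ext v
    simp [mul_left_comm, Finset.mul_sum]

lemma Bop_apply {n : ℕ} (A : Fin n → Fin n → ℝ) (d : Fin n → ℝ) (w : EuclideanSpace ℝ (Fin n))
    (u : Fin n) : Bop A d w u = ∑ v, A u v / (Real.sqrt (d u) * Real.sqrt (d v)) * w v := rfl

lemma Bop_symm {n : ℕ} (A : Fin n → Fin n → ℝ) (hA : ∀ u v, A u v = A v u) (d : Fin n → ℝ)
    (x y : EuclideanSpace ℝ (Fin n)) :
    inner ℝ (Bop A d x) y = inner ℝ x (Bop A d y) := by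
  simp only [PiLp.inner_apply, Bop_apply, RCLike.inner_apply, conj_trivial]
  simp_rw [Finset.sum_mul, Finset.mul_sum]
  rw [Finset.sum_comm]
  apply Finset.sum_congr rfl
  intro v _
  apply Finset.sum_congr rfl
  intro u _
  rw [hA u v]
  ring

lemma Bop_inner {n : ℕ} (A : Fin n → Fin n → ℝ) (d : Fin n → ℝ) (hd : ∀ v, 0 < d v)
    (x y : Fin n → ℝ) :
    inner ℝ (sc d x) (Bop A d (sc d y)) = ∑ u, ∑ v, A u v * x u * y v := by
  simp only [PiLp.inner_apply, Bop_apply, RCLike.inner_apply, conj_trivial, sc_apply]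
  apply Finset.sum_congr rfl
  intro u _
  rw [Finset.sum_mul]
  apply Finset.sum_congr rfl
  intro v _
  have h1 : Real.sqrt (d u) ≠ 0 := (Real.sqrt_pos.2 (hd u)).ne'
  have h2 : Real.sqrt (d v) ≠ 0 := (Real.sqrt_pos.2 (hd v)).ne'
  field_simp

theorem es : S_ES := by
  intro n A d W m hA hd hm
  set W' : Submodule ℝ (EuclideanSpace ℝ (Fin n)) := W.map (sc d) with hW'
  have hm' : Module.finrank ℝ W' = m := by
    rw [← hm]
    exact (LinearEquiv.finrank_eq (Submodule.equivMapOfInjective (sc d) (sc_inj d hd) W)).symm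
  let T : W' →ₗ[ℝ] W' :=
    (W'.orthogonalProjectionOnto : EuclideanSpace ℝ (Fin n) →ₗ[ℝ] W') ∘ₗ (Bop A d) ∘ₗ W'.subtype
  have hTapp : ∀ x : W', T x = W'.orthogonalProjectionOnto (Bop A d x) := fun _ => rfl
  have hT : T.IsSymmetric := by
    intro x y
    rw [hTapp, hTapp, Submodule.inner_orthogonalProjectionOnto_eq_of_mem_right,
      Submodule.inner_orthogonalProjectionOnto_eq_of_mem_left]
    exact Bop_symm A hA d x y
  -- preimages of the basis vectors
  have hpre : ∀ i : Fin m, ∃ f : Fin n → ℝ, f ∈ W ∧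
      sc d f = (hT.eigenvectorBasis hm' i : EuclideanSpace ℝ (Fin n)) := by
    intro i
    obtain ⟨f, hf, hf2⟩ := (hT.eigenvectorBasis hm' i).2
    exact ⟨f, hf, hf2⟩
  choose f hfW hf using hpre
  refine ⟨⟨hT.eigenvalues hm', f, hT.eigenvalues_antitone hm', ?_, hfW, ?_, ?_⟩⟩
  · intro i j
    rw [← sc_inner d hd, hf, hf]
    have := (orthonormal_iff_ite.1 (hT.eigenvectorBasis hm').orthonormal) i j
    rw [← this]
    rfl
  · intro i x hx
    rw [← Bop_inner A d hd, ← sc_inner d hd, hf]
    have hx' : sc d x ∈ W' := Submodule.mem_map_of_mem hx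
    have h1 := Submodule.inner_orthogonalProjectionOnto_eq_of_mem_left (K := W') ⟨sc d x, hx'⟩
      (Bop A d (hT.eigenvectorBasis hm' i : EuclideanSpace ℝ (Fin n)))
    rw [← h1, ← hTapp, hT.apply_eigenvectorBasis hm' i]
    rw [inner_smul_right]
    rfl
  · intro x hx v
    have hx' : sc d x ∈ W' := Submodule.mem_map_of_mem hx
    have h1 := (hT.eigenvectorBasis hm').sum_repr ⟨sc d x, hx'⟩
    have h2 : sc d x = sc d (fun v => ∑ i, (∑ u, d u * x u * f i u) * f i v) := by
      have h3 := congrArg (fun z : W' => (z : EuclideanSpace ℝ (Fin n))) h1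
      simp only at h3
      rw [← h3, Submodule.coe_sum]
      ext v
      rw [sc_apply, Finset.mul_sum]
      rw [WithLp.ofLp_sum, Finset.sum_apply]
      apply Finset.sum_congr rfl
      intro i _
      have h4 : (hT.eigenvectorBasis hm').repr ⟨sc d x, hx'⟩ i = ∑ u, d u * x u * f i u := by
        rw [OrthonormalBasis.repr_apply_apply, ← sc_inner d hd, hf]
        rw [real_inner_comm]
        rfl
      rw [h4]
      have h5 : ((hT.eigenvectorBasis hm' i : W') : EuclideanSpace ℝ (Fin n)) v
          = Real.sqrt (d v) * f i v := by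
        rw [← hf i, sc_apply]
      simp only [Submodule.coe_smul, PiLp.smul_apply, smul_eq_mul]
      rw [h5]
      ring
    have h6 := sc_inj d hd h2
    exact congrFun h6 v

/-! ## S_INT -/

/-- combination of the eigenvectors with indices in `S` -/
noncomputable def comb {n : ℕ} {A : Fin n → Fin n → ℝ} {d : Fin n → ℝ}
    {W : Submodule ℝ (Fin n → ℝ)} {m : ℕ} (E : ESys A d W m) (S : Finset (Fin m)) :
    (S → ℝ) →ₗ[ℝ] (Fin n → ℝ) where
  toFun a v := ∑ k : S, a k * E.f k v
  map_add' a b := by
    funext v; simp [add_mul, Finset.sum_add_distrib]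
  map_smul' t a := by
    funext v; simp [Finset.mul_sum, mul_assoc]

section
variable {n : ℕ} {A : Fin n → Fin n → ℝ} {d : Fin n → ℝ}
    {W : Submodule ℝ (Fin n → ℝ)} {m : ℕ} (E : ESys A d W m) (S : Finset (Fin m))

lemma comb_mem (a : S → ℝ) : comb E S a ∈ W := by
  have : comb E S a = ∑ k : S, a k • E.f k := by
    funext v
    simp [comb, Finset.sum_apply]
  rw [this]
  exact Submodule.sum_mem _ (fun k _ => Submodule.smul_mem _ _ (E.mem k))

lemma comb_coord (a : S → ℝ) (k : S) : ∑ v, d v * comb E S a v * E.f k v = a k := by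
  have h1 : ∀ v, d v * comb E S a v * E.f k v = ∑ l : S, a l * (d v * E.f l v * E.f k v) := by
    intro v
    simp only [comb, LinearMap.coe_mk, AddHom.coe_mk]
    rw [Finset.mul_sum, Finset.sum_mul]
    apply Finset.sum_congr rfl
    intro l _
    ring
  rw [Finset.sum_congr rfl (fun v _ => h1 v), Finset.sum_comm]
  have h2 : ∀ l : S, ∑ v, a l * (d v * E.f l v * E.f k v) = if l = k then a l else 0 := by
    intro l
    rw [← Finset.mul_sum, E.orth l k]
    by_cases h : l = k
    · simp [h]
    · have : (l : Fin m) ≠ k := fun h' => h (Subtype.ext h')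
      simp [h, this]
  rw [Finset.sum_congr rfl (fun l _ => h2 l)]
  simp

lemma comb_norm (a : S → ℝ) :
    ∑ v, d v * comb E S a v * comb E S a v = ∑ k, a k ^ 2 := by
  have h1 : ∀ v, d v * comb E S a v * comb E S a v
      = ∑ k : S, a k * (d v * comb E S a v * E.f k v) := by
    intro v
    conv_lhs => rw [show comb E S a v = ∑ k : S, a k * E.f k v from rfl]
    rw [Finset.mul_sum]
    apply Finset.sum_congr rfl
    intro k _
    have : comb E S a v = ∑ k : S, a k * E.f k v := rfl
    rw [this]
    ring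
  rw [Finset.sum_congr rfl (fun v _ => h1 v), Finset.sum_comm]
  apply Finset.sum_congr rfl
  intro k _
  rw [← Finset.mul_sum, comb_coord]
  ring

lemma comb_form (a : S → ℝ) :
    ∑ u, ∑ v, A u v * comb E S a u * comb E S a v = ∑ k : S, E.θ k * a k ^ 2 := by
  have h1 : ∀ u, ∑ v, A u v * comb E S a u * comb E S a v
      = ∑ k : S, a k * ∑ v, A u v * comb E S a u * E.f k v := by
    intro u
    have : ∀ v, A u v * comb E S a u * comb E S a v
        = ∑ k : S, a k * (A u v * comb E S a u * E.f k v) := by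
      intro v
      conv_lhs => rw [show comb E S a v = ∑ k : S, a k * E.f k v from rfl]
      rw [Finset.mul_sum]
      apply Finset.sum_congr rfl
      intro k _
      ring
    rw [Finset.sum_congr rfl (fun v _ => this v), Finset.sum_comm]
    apply Finset.sum_congr rfl
    intro k _
    rw [Finset.mul_sum]
  rw [Finset.sum_congr rfl (fun u _ => h1 u), Finset.sum_comm]
  apply Finset.sum_congr rfl
  intro k _
  rw [← Finset.mul_sum, E.eig k (comb E S a) (comb_mem E S a), comb_coord]
  ring

end

lemma inter {n : ℕ} {A : Fin n → Fin n → ℝ} {d : Fin n → ℝ}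
    {W W1 W2 : Submodule ℝ (Fin n → ℝ)} {m m1 m2 : ℕ} (E : ESys A d W m)
    (E1 : ESys A d W1 m1) (h1 : W1 ≤ W) (E2 : ESys A d W2 m2) (h2 : W2 ≤ W)
    (S1 : Finset (Fin m1)) (S2 : Finset (Fin m2)) (hcard : m < S1.card + S2.card) (t1 t2 : ℝ)
    (ht1 : ∀ k ∈ S1, t1 ≤ E1.θ k) (ht2 : ∀ k ∈ S2, E2.θ k ≤ t2) : t1 ≤ t2 := by
  let φ : ((S1 → ℝ) × (S2 → ℝ)) →ₗ[ℝ] (Fin m → ℝ) :=
    { toFun := fun ab l => ∑ v, d v * (comb E1 S1 ab.1 v - comb E2 S2 ab.2 v) * E.f l v
      map_add' := by
        intro x y
        funext l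
        simp only [Prod.fst_add, Prod.snd_add, map_add, Pi.add_apply]
        rw [← Finset.sum_add_distrib]
        apply Finset.sum_congr rfl
        intro v _
        ring
      map_smul' := by
        intro t x
        funext l
        simp only [Prod.smul_fst, Prod.smul_snd, map_smul, Pi.smul_apply, smul_eq_mul,
          RingHom.id_apply]
        rw [Finset.mul_sum]
        apply Finset.sum_congr rfl
        intro v _
        ring }
  have hker : LinearMap.ker φ ≠ ⊥ := by
    apply LinearMap.ker_ne_bot_of_finrank_lt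
    simp only [Module.finrank_prod, Module.finrank_fintype_fun_eq_card, Fintype.card_coe,
      Fintype.card_fin]
    exact hcard
  obtain ⟨⟨a, b⟩, hab, hne⟩ := (Submodule.ne_bot_iff _).1 hker
  have hφ : ∀ l, ∑ v, d v * (comb E1 S1 a v - comb E2 S2 b v) * E.f l v = 0 :=
    fun l => congrFun (show φ (a, b) = 0 from hab) l
  have heq : comb E1 S1 a = comb E2 S2 b := by
    have hmem : comb E1 S1 a - comb E2 S2 b ∈ W :=
      Submodule.sub_mem _ (h1 (comb_mem E1 S1 a)) (h2 (comb_mem E2 S2 b))
    funext v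
    have h3 := E.expand _ hmem v
    have h4 : ∑ i, (∑ u, d u * (comb E1 S1 a - comb E2 S2 b) u * E.f i u) * E.f i v = 0 := by
      apply Finset.sum_eq_zero
      intro i _
      have := hφ i
      have e : ∑ u, d u * (comb E1 S1 a - comb E2 S2 b) u * E.f i u = 0 := this
      rw [e, zero_mul]
    rw [h4] at h3
    have : comb E1 S1 a v - comb E2 S2 b v = 0 := h3
    linarith
  have hn1 := comb_norm E1 S1 a
  have hn2 := comb_norm E2 S2 b
  have hf1 := comb_form E1 S1 a
  have hf2 := comb_form E2 S2 b
  rw [heq] at hn1 hf1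
  -- the norm is positive
  have hpos : 0 < ∑ k, a k ^ 2 := by
    rcases (Finset.sum_nonneg (fun (k : S1) _ => sq_nonneg (a k))).eq_or_lt with h0 | h0
    · exfalso
      apply hne
      have ha : a = 0 := by
        funext k
        have := (Finset.sum_eq_zero_iff_of_nonneg (fun (k : S1) _ => sq_nonneg (a k))).1 h0.symm k
          (Finset.mem_univ k)
        exact pow_eq_zero_iff two_ne_zero |>.1 this
      have hb0 : ∑ k, b k ^ 2 = 0 := by rw [← hn2, hn1, ← h0]
      have hb : b = 0 := by
        funext k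
        have := (Finset.sum_eq_zero_iff_of_nonneg (fun (k : S2) _ => sq_nonneg (b k))).1 hb0 k
          (Finset.mem_univ k)
        exact pow_eq_zero_iff two_ne_zero |>.1 this
      rw [ha, hb]; rfl
    · exact h0
  have h5 : t1 * ∑ k, a k ^ 2 ≤ ∑ k : S1, E1.θ k * a k ^ 2 := by
    rw [Finset.mul_sum]
    apply Finset.sum_le_sum
    intro k _
    exact mul_le_mul_of_nonneg_right (ht1 k k.2) (sq_nonneg _)
  have h6 : ∑ k : S2, E2.θ k * b k ^ 2 ≤ t2 * ∑ k, b k ^ 2 := by
    rw [Finset.mul_sum]
    apply Finset.sum_le_sum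
    intro k _
    exact mul_le_mul_of_nonneg_right (ht2 k k.2) (sq_nonneg _)
  have h7 : t1 * ∑ k, a k ^ 2 ≤ t2 * ∑ k, a k ^ 2 := by
    calc t1 * ∑ k, a k ^ 2 ≤ ∑ k : S1, E1.θ k * a k ^ 2 := h5
      _ = ∑ k : S2, E2.θ k * b k ^ 2 := by rw [← hf1, ← hf2]
      _ ≤ t2 * ∑ k, b k ^ 2 := h6
      _ = _ := by rw [← hn2, hn1]
  exact le_of_mul_le_mul_right h7 hpos

theorem int : S_INT := by
  intro n A d W W' m m' _ _ hWW E E'
  refine ⟨?_, ?_⟩
  · intro i j hij
    refine inter E E' hWW E le_rfl (Finset.Iic i) (Finset.Ici j) ?_ _ _ ?_ ?_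
    · rw [Fin.card_Iic, Fin.card_Ici]
      have := j.2
      omega
    · intro k hk
      exact E'.anti (Finset.mem_Iic.1 hk)
    · intro k hk
      exact E.anti (Finset.mem_Ici.1 hk)
  · intro hmm i j hij
    refine inter E E le_rfl E' hWW (Finset.Iic j) (Finset.Ici i) ?_ _ _ ?_ ?_
    · rw [Fin.card_Iic, Fin.card_Ici]
      have := i.2
      omega
    · intro k hk
      exact E.anti (Finset.mem_Iic.1 hk)
    · intro k hk
      exact E'.anti (Finset.mem_Ici.1 hk)

/-! ## S_FR -/

theorem fr : S_FR := by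
  intro n d hd
  constructor
  · intro hn
    let φ : (Fin n → ℝ) →ₗ[ℝ] ℝ :=
      { toFun := fun x => ∑ v, d v * x v
        map_add' := by intro x y; simp [mul_add, Finset.sum_add_distrib]
        map_smul' := by
          intro t x
          simp only [Pi.smul_apply, smul_eq_mul, RingHom.id_apply, Finset.mul_sum]
          exact Finset.sum_congr rfl (fun v _ => by ring) }
    have hker : perp d = LinearMap.ker φ := by
      ext x
      rfl
    have hsurj : LinearMap.range φ = ⊤ := by
      rw [LinearMap.range_eq_top]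
      intro t
      refine ⟨fun v => if v = ⟨0, hn⟩ then t / d ⟨0, hn⟩ else 0, ?_⟩
      change ∑ v, d v * (if v = ⟨0, hn⟩ then t / d ⟨0, hn⟩ else 0) = t
      simp only [mul_ite, mul_zero, Finset.sum_ite_eq', Finset.mem_univ, if_true]
      have := (hd ⟨0, hn⟩).ne'
      field_simp
    have h1 := LinearMap.finrank_range_add_finrank_ker φ
    rw [hsurj, finrank_top, Module.finrank_self, ← hker] at h1
    have h2 : Module.finrank ℝ (Fin n → ℝ) = n := by simp
    omega
  · intro hn a b hab
    let φ : (Fin n → ℝ) →ₗ[ℝ] (ℝ × ℝ) :=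
      { toFun := fun x => (∑ v, d v * x v, x a - x b)
        map_add' := by
          intro x y
          ext
          · simp [mul_add, Finset.sum_add_distrib]
          · simp; ring
        map_smul' := by
          intro t x
          ext
          · simp only [Pi.smul_apply, smul_eq_mul, RingHom.id_apply, Prod.smul_mk, Finset.mul_sum]
            exact Finset.sum_congr rfl (fun v _ => by ring)
          · simp; ring }
    have hker : perp2 d a b = LinearMap.ker φ := by
      ext x
      rw [LinearMap.mem_ker]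
      change (∑ v, d v * x v = 0 ∧ x a = x b) ↔ ((∑ v, d v * x v, x a - x b) : ℝ × ℝ) = 0
      rw [Prod.ext_iff]
      simp [sub_eq_zero]
    have hsurj : LinearMap.range φ = ⊤ := by
      rw [LinearMap.range_eq_top]
      rintro ⟨s, t⟩
      have hda := hd a
      have hdb := hd b
      -- x_a = α, x_b = α - t, d_a α + d_b (α - t) = s
      refine ⟨fun v => if v = a then (s + d b * t) / (d a + d b)
        else if v = b then (s + d b * t) / (d a + d b) - t else 0, ?_⟩
      have hne : d a + d b ≠ 0 := by positivity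
      have hsum : ∑ v, d v * (if v = a then (s + d b * t) / (d a + d b)
          else if v = b then (s + d b * t) / (d a + d b) - t else 0) = s := by
        have e : ∀ v, d v * (if v = a then (s + d b * t) / (d a + d b)
          else if v = b then (s + d b * t) / (d a + d b) - t else 0)
          = (if v = a then d a * ((s + d b * t) / (d a + d b)) else 0) +
            (if v = b then d b * ((s + d b * t) / (d a + d b) - t) else 0) := by
          intro v
          by_cases hva : v = a
          · subst hva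
            simp [hab]
          · by_cases hvb : v = b
            · subst hvb
              simp [hva]
            · simp [hva, hvb]
        rw [Finset.sum_congr rfl (fun v _ => e v), Finset.sum_add_distrib]
        simp only [Finset.sum_ite_eq', Finset.mem_univ, if_true]
        field_simp
        ring
      change ((∑ v, d v * (if v = a then (s + d b * t) / (d a + d b)
          else if v = b then (s + d b * t) / (d a + d b) - t else 0) : ℝ), _) = (s, t)
      rw [hsum]
      congr 1
      simp [hab.symm]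
    have h1 := LinearMap.finrank_range_add_finrank_ker φ
    rw [hsurj, finrank_top, ← hker] at h1
    have h2 : Module.finrank ℝ (Fin n → ℝ) = n := by simp
    have h3 : Module.finrank ℝ (ℝ × ℝ) = 2 := by simp
    omega

end Pool.Agent.W766.ChES
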