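import Pool.Agent.W766.ChG3.Main1

set_option autoImplicit false
open scoped Classical
open Finset Filter Topology

namespace Pool.Agent.W766.ChG3
open Pool.Agent.W839.Ch

lemma wt_nonneg {n : ℕ} {p : ℝ} (h0 : 0 < p) (h1 : p < 1) (G : SimpleGraph (Fin n)) :
    0 ≤ wt n p G := by
  unfold wt
  have : 0 ≤ 1 - p := by linarith
  positivity

lemma Pr_mono {n : ℕ} {p : ℝ} (h0 : 0 < p) (h1 : p < 1) {P Q : SimpleGraph (Fin n) → Prop}
    (h : ∀ G, P G → Q G) : Pr n p P ≤ Pr n p Q := by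
  unfold Pr
  apply Finset.sum_le_sum
  intro G _
  have := wt_nonneg h0 h1 G
  by_cases hP : P G
  · simp [hP, h G hP]
  · simp only [hP, if_false]
    split_ifs <;> simp [this]

lemma Pr_or {n : ℕ} {p : ℝ} (h0 : 0 < p) (h1 : p < 1) (P Q : SimpleGraph (Fin n) → Prop) :
    Pr n p (fun G => P G ∨ Q G) ≤ Pr n p P + Pr n p Q := by
  unfold Pr
  rw [← Finset.sum_add_distrib]
  apply Finset.sum_le_sum
  intro G _
  have := wt_nonneg h0 h1 G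
  by_cases hP : P G <;> by_cases hQ : Q G <;> simp [hP, hQ, this]

lemma G3_of_unit {n : ℕ} {C0 c ε : ℝ} {a b : Fin n} {G : SimpleGraph (Fin n)}
    (h : ∀ (θ : ℝ) (w : Fin n → ℝ), sn w = 1 → θ ^ 2 * n ≤ C0 ^ 2 → w a = w b →
      (∀ v, v ≠ a → v ≠ b → ∑ u, adj G v u * w u = θ * deg G v * w v) → w a ^ 2 ≤ ε ^ 2 →
      c * n ≤ ((Finset.univ.filter (fun v : Fin n => v ≠ a ∧ v ≠ b ∧ adj G a v ≠ adj G b v ∧
        c ^ 2 ≤ n * w v ^ 2)).card : ℝ)) : G3 C0 c ε a b G := by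
  intro θ w hw hθ hab heig hwa
  have hsn : 0 < sn w := by
    rcases (sn_nonneg w).eq_or_lt with h0 | h0
    · exfalso
      apply hw
      funext v
      have h1 := (Finset.sum_eq_zero_iff_of_nonneg (fun v _ => sq_nonneg (w v))).1
        (show ∑ v, w v ^ 2 = 0 from h0.symm) v (Finset.mem_univ v)
      exact pow_eq_zero_iff two_ne_zero |>.1 h1
    · exact h0
  have hs : 0 < Real.sqrt (sn w) := Real.sqrt_pos.2 hsn
  have hs2 : Real.sqrt (sn w) ^ 2 = sn w := Real.sq_sqrt hsn.le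
  have h1 := h θ (fun v => w v / Real.sqrt (sn w)) (by
      unfold sn
      simp_rw [div_pow]
      rw [← Finset.sum_div]
      change sn w / (Real.sqrt (sn w)) ^ 2 = 1
      rw [hs2]
      exact div_self hsn.ne') hθ (by simp only [hab]) (by
      intro v hva hvb
      have := heig v hva hvb
      calc ∑ u, adj G v u * (w u / Real.sqrt (sn w))
          = (∑ u, adj G v u * w u) / Real.sqrt (sn w) := by
            rw [Finset.sum_div]
            apply Finset.sum_congr rfl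
            intro u _
            ring
        _ = _ := by rw [this]; ring) (by
      rw [div_pow, hs2, div_le_iff₀ hsn]
      exact hwa)
  refine le_trans h1 ?_
  apply le_of_eq
  congr 2
  apply Finset.filter_congr
  intro v _
  have e : (c ^ 2 ≤ n * (w v / Real.sqrt (sn w)) ^ 2) ↔ (c ^ 2 * sn w ≤ n * w v ^ 2) := by
    rw [div_pow, hs2, ← mul_div_assoc, le_div_iff₀ hsn]
  rw [e]

lemma pow_eq_exp (r : ℝ) (hr : 0 < r) (k : ℕ) : r ^ k = Real.exp (Real.log r * k) := by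
  rw [mul_comm, Real.exp_nat_mul, Real.exp_log hr]

set_option maxHeartbeats 2000000 in
theorem main : S_BIT → S_MIX → S_BLK → S_OPN → S_DEG → S_SP → S_NA → S_G3 := by
  intro hBIT hMIX _ hOPN hDEG hSP hNA p hp0 hp1 C0 hC0
  obtain ⟨C, hC, hlimO⟩ := hOPN p hp0 hp1
  obtain ⟨c1, ε1, hc1, hε1, hlimS⟩ := hSP p hp0 hp1
  -- c5
  obtain ⟨c5, hc5, hc5a, hc5b⟩ : ∃ c5 : ℝ, 0 < c5 ∧ c5 ^ 2 ≤ 1 / 4 ∧
      4 * ((C0 ^ 2 + C ^ 2 + 1) * c5 ^ 2) ≤ c1 / 8 := by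
    have hS : 0 < C0 ^ 2 + C ^ 2 + 1 := by positivity
    refine ⟨Real.sqrt (min (1/4) (c1 / (32 * (C0 ^ 2 + C ^ 2 + 1)))), ?_, ?_, ?_⟩
    · apply Real.sqrt_pos.2
      apply lt_min (by norm_num)
      positivity
    · rw [Real.sq_sqrt (by positivity)]
      exact min_le_left _ _
    · rw [Real.sq_sqrt (by positivity)]
      have := min_le_right (1/4) (c1 / (32 * (C0 ^ 2 + C ^ 2 + 1)))
      calc _ ≤ 4 * ((C0 ^ 2 + C ^ 2 + 1) * (c1 / (32 * (C0 ^ 2 + C ^ 2 + 1)))) := by gcongr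
        _ = c1 / 8 := by field_simp; norm_num
  -- exponents
  set ρ0 := 1 - min p (1 - p) / 2 with hρ0
  have hq : 0 < min p (1 - p) := lt_min hp0 (by linarith)
  have hq2 : min p (1 - p) ≤ p := min_le_left _ _
  have hρpos : 0 < ρ0 := by rw [hρ0]; linarith
  have hρlt : ρ0 < 1 := by rw [hρ0]; linarith
  set L0 := - Real.log ρ0 with hL0
  have hL0pos : 0 < L0 := by
    have := Real.log_neg hρpos hρlt
    linarith
  set L := L0 * (ε1 / 4) with hL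
  have hLpos : 0 < L := by positivity
  set τ := L / 4 with hτ
  have hτpos : 0 < τ := by positivity
  obtain ⟨e, he, he1, he2⟩ : ∃ e : ℝ, 0 < e ∧ 16 * e ^ 2 ≤ ε1 * c5 ^ 2 ∧
      32 * e ^ 2 ≤ τ * c5 ^ 2 := by
    refine ⟨Real.sqrt (min (ε1 * c5 ^ 2 / 16) (τ * c5 ^ 2 / 32)), ?_, ?_, ?_⟩
    · apply Real.sqrt_pos.2
      apply lt_min <;> positivity
    · rw [Real.sq_sqrt (by positivity)]
      have := min_le_left (ε1 * c5 ^ 2 / 16) (τ * c5 ^ 2 / 32)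
      linarith
    · rw [Real.sq_sqrt (by positivity)]
      have := min_le_right (ε1 * c5 ^ 2 / 16) (τ * c5 ^ 2 / 32)
      linarith
  set h := e / 2 with hh
  have hhpos : 0 < h := by positivity
  set s' := L * h ^ 2 / 4 with hs'
  have hs'pos : 0 < s' := by positivity
  set x := Real.exp (-s') with hx
  have hx0 : 0 < x := Real.exp_pos _
  have hx1 : x < 1 := by
    rw [hx, ← Real.exp_zero]
    exact Real.exp_lt_exp.2 (by linarith)
  set B := (1 + x) / (1 - x) with hB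
  have hB1 : 1 < B := by
    rw [hB, lt_div_iff₀ (by linarith)]; linarith
  have hlogB : 0 < Real.log B := Real.log_pos hB1
  set cN := L / (8 * Real.log B) with hcN
  have hcNpos : 0 < cN := by positivity
  obtain ⟨κ, hκ, hlimN⟩ := hNA p hp0 hp1 cN hcNpos
  set δ2 := κ * e / 2 with hδ2
  have hδ2pos : 0 < δ2 := by positivity
  set δ := δ2 / 2 with hδ
  have hδpos : 0 < δ := by positivity
  set δ1 := min (δ2 / 2) (Real.sqrt c1 / 4) with hδ1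
  have hδ1pos : 0 < δ1 := by
    apply lt_min (by positivity)
    have := Real.sqrt_pos.2 hc1
    positivity
  have hδ1a : δ1 ^ 2 ≤ (δ2 / 2) ^ 2 := pow_le_pow_left₀ hδ1pos.le (min_le_left _ _) 2
  have hδ1b : δ1 ^ 2 ≤ c1 / 16 := by
    have h1 : δ1 ^ 2 ≤ (Real.sqrt c1 / 4) ^ 2 := pow_le_pow_left₀ hδ1pos.le (min_le_right _ _) 2
    rw [div_pow, Real.sq_sqrt hc1.le] at h1
    linarith
  set δ0 := δ1 / (2 * C0) with hδ0
  have hδ0pos : 0 < δ0 := by positivity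
  set ε := min (δ1 / 4) (1 / 4) with hε
  have hεpos : 0 < ε := by
    apply lt_min (by positivity) (by norm_num)
  have hεa : ε ^ 2 ≤ (δ1 / 4) ^ 2 := pow_le_pow_left₀ hεpos.le (min_le_left _ _) 2
  have hεb : ε ^ 2 ≤ (1 / 4) ^ 2 := pow_le_pow_left₀ hεpos.le (min_le_right _ _) 2
  set c := min (τ / 2) (c5 / 4) with hc
  have hcpos : 0 < c := by apply lt_min <;> positivity
  set Gm : ℕ := ⌈C0 / δ + 1⌉₊ with hGm
  have H1 : 4 * (C0 ^ 2 * c5 ^ 2 + δ1 ^ 2 + C ^ 2 * c5 ^ 2 + c5 ^ 2)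
      < c1 * (1 - 2 * ε ^ 2 - c5 ^ 2) := by
    have h1 : c1 * (5 / 8) ≤ c1 * (1 - 2 * ε ^ 2 - c5 ^ 2) := by
      apply mul_le_mul_of_nonneg_left _ hc1.le
      norm_num at hεb ⊢
      linarith
    have h2 : 4 * (C0 ^ 2 * c5 ^ 2 + δ1 ^ 2 + C ^ 2 * c5 ^ 2 + c5 ^ 2)
        = 4 * ((C0 ^ 2 + C ^ 2 + 1) * c5 ^ 2) + 4 * δ1 ^ 2 := by ring
    rw [h2]
    linarith
  have H2 : 2 * C0 ^ 2 * δ0 ^ 2 + 8 * ε ^ 2 ≤ δ1 ^ 2 := by
    have h1 : 2 * C0 ^ 2 * δ0 ^ 2 = δ1 ^ 2 / 2 := by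
      rw [hδ0]; field_simp
    rw [h1]
    have h2 : 8 * (δ1 / 4) ^ 2 = δ1 ^ 2 / 2 := by ring
    linarith
  have H3 : 2 * δ1 ^ 2 + 2 * δ ^ 2 ≤ δ2 ^ 2 := by
    rw [hδ]
    linarith
  have H4 : δ2 ^ 2 / κ ^ 2 + h ^ 2 ≤ e ^ 2 := by
    have h1 : δ2 ^ 2 / κ ^ 2 = e ^ 2 / 4 := by
      rw [hδ2]; field_simp; norm_num
    have h2 : h ^ 2 = e ^ 2 / 4 := by rw [hh]; ring
    rw [h1, h2]
    have h3 := sq_nonneg e
    linarith
  have hlimD := hDEG p hp0 hp1 δ0 hδ0pos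
  refine ⟨c, ε, hcpos, hεpos, ?_⟩
  intro η hη
  have hη5 : 0 < η / 5 := by positivity
  -- the bound for the net event tends to zero
  have hnetlim : Tendsto (fun n : ℕ => (2 * (Gm : ℝ) + 1) * (B ^ 4 *
      Real.exp (-(3 / 8 * L) * n))) atTop (𝓝 0) := by
    have h1 : Tendsto (fun n : ℕ => Real.exp (-(3 / 8 * L) * n)) atTop (𝓝 0) := by
      apply Real.tendsto_exp_atBot.comp
      apply Tendsto.const_mul_atTop_of_neg (by linarith)
      exact tendsto_natCast_atTop_atTop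
    have h2 := (h1.const_mul (B ^ 4)).const_mul (2 * (Gm : ℝ) + 1)
    simpa using h2
  have hev : ∀ᶠ n : ℕ in atTop, 0 < n ∧ 2 ≤ ε1 * n / 2 ∧
      Pr n p (fun G => ¬ OpN p C G) < η / 5 ∧ Pr n p (fun G => ¬ DG p δ0 G) < η / 5 ∧
      Pr n p (fun G => ¬ SP c1 ε1 G) < η / 5 ∧ Pr n p (fun G => ¬ NA cN κ G) < η / 5 ∧
      (2 * (Gm : ℝ) + 1) * (B ^ 4 * Real.exp (-(3 / 8 * L) * n)) < η / 5 := by
    have e1 : ∀ᶠ n : ℕ in atTop, 0 < n := eventually_gt_atTop 0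
    have e2 : ∀ᶠ n : ℕ in atTop, 2 ≤ ε1 * n / 2 := by
      have : Tendsto (fun n : ℕ => ε1 * (n : ℝ) / 2) atTop atTop := by
        apply Tendsto.atTop_div_const (by norm_num)
        exact Tendsto.const_mul_atTop hε1 tendsto_natCast_atTop_atTop
      exact this.eventually_ge_atTop 2
    filter_upwards [e1, e2, hlimO.eventually_lt_const hη5, hlimD.eventually_lt_const hη5,
      hlimS.eventually_lt_const hη5, hlimN.eventually_lt_const hη5,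
      hnetlim.eventually_lt_const hη5] with n a1 a2 a3 a4 a5 a6 a7
    exact ⟨a1, a2, a3, a4, a5, a6, a7⟩
  obtain ⟨n0, hn0⟩ := eventually_atTop.1 hev
  refine ⟨n0, ?_⟩
  intro n hn a b hab
  obtain ⟨a1, a2, a3, a4, a5, a6, a7⟩ := hn0 n hn
  have hn' : (0 : ℝ) < n := by exact_mod_cast a1
  set NE : SimpleGraph (Fin n) → Prop := fun G =>
    ∃ z ∈ net κ h δ Gm (cN * n + 4) (A0 a b G), ⌈ε1 / 4 * n⌉₊ ≤ (typ c5 a b z).card ∧
      ((typ c5 a b z).filter (fun v => adj G a v ≠ adj G b v)).card ≤ ⌊τ * n⌋₊ with hNE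
  have hdet : ∀ G : SimpleGraph (Fin n), ¬ G3 C0 c ε a b G →
      (((¬ OpN p C G ∨ ¬ DG p δ0 G) ∨ ¬ SP c1 ε1 G) ∨ ¬ NA cN κ G) ∨ NE G := by
    intro G hG
    by_contra hcon
    push Not at hcon
    obtain ⟨⟨⟨⟨b1, b2⟩, b3⟩, b4⟩, b5⟩ := hcon
    apply hG
    apply G3_of_unit
    intro θ w hw1 hθ hwab heig hwa
    exact det1 a1 hp0 hp1 hC0 b1 b2 b3 b4 hc1 a2 a b hab hκ hhpos hδpos hc5 hcpos H1 H2 H3 H4
      he1 he2 (min_le_left _ _) (min_le_right _ _) (Nat.le_ceil _) b5 θ w hw1 hθ hwab heig hwa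
  have hNEle : Pr n p NE ≤ (2 * (Gm : ℝ) + 1) * (B ^ 4 * Real.exp (-(3 / 8 * L) * n)) := by
    have h1 := prob_net hBIT hMIX hp0 hp1 a b hab (net κ h δ Gm (cN * n + 4))
      ((2 * Gm + 1) * ((x ^ ⌊(n : ℝ) / h ^ 2⌋₊)⁻¹ * B ^ ⌊cN * n + 4⌋₊))
      (fun A => card_net κ h δ Gm (cN * n + 4) x hx0 hx1 A) (typ c5 a b) (by
        intro z v hv
        unfold typ at hv
        have := (Finset.mem_filter.1 hv).2
        exact ⟨this.1, this.2.1⟩) ⌊τ * n⌋₊ ⌈ε1 / 4 * n⌉₊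
    refine le_trans h1 ?_
    rw [← hρ0, mul_assoc]
    apply mul_le_mul_of_nonneg_left _ (by positivity)
    have f1 : (x ^ ⌊(n : ℝ) / h ^ 2⌋₊)⁻¹ ≤ Real.exp (L / 4 * n) := by
      rw [hx, ← Real.exp_nat_mul, ← Real.exp_neg]
      apply Real.exp_le_exp.2
      have h2 : ((⌊(n : ℝ) / h ^ 2⌋₊ : ℕ) : ℝ) ≤ n / h ^ 2 := Nat.floor_le (by positivity)
      calc -(((⌊(n : ℝ) / h ^ 2⌋₊ : ℕ) : ℝ) * -s') = ((⌊(n : ℝ) / h ^ 2⌋₊ : ℕ) : ℝ) * s' := by ring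
        _ ≤ n / h ^ 2 * s' := mul_le_mul_of_nonneg_right h2 hs'pos.le
        _ = L / 4 * n := by rw [hs']; field_simp
    have f2 : B ^ ⌊cN * n + 4⌋₊ ≤ B ^ 4 * Real.exp (L / 8 * n) := by
      have hBpos : 0 < B := by linarith
      have h2 : ((⌊cN * n + 4⌋₊ : ℕ) : ℝ) ≤ cN * n + 4 := Nat.floor_le (by positivity)
      have h3 : B ^ ⌊cN * n + 4⌋₊ = Real.exp (Real.log B * (⌊cN * n + 4⌋₊ : ℕ)) :=
        pow_eq_exp B hBpos _
      have h4 : B ^ 4 = Real.exp (Real.log B * 4) := by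
        have := pow_eq_exp B hBpos 4
        exact_mod_cast this
      rw [h3, h4, ← Real.exp_add]
      apply Real.exp_le_exp.2
      calc Real.log B * (⌊cN * n + 4⌋₊ : ℕ) ≤ Real.log B * (cN * n + 4) :=
            mul_le_mul_of_nonneg_left h2 hlogB.le
        _ = _ := by rw [hcN]; field_simp; ring
    have f3 : (2 : ℝ) ^ ⌊τ * n⌋₊ ≤ Real.exp (L / 4 * n) := by
      have h2 : ((⌊τ * n⌋₊ : ℕ) : ℝ) ≤ τ * n := Nat.floor_le (by positivity)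
      have h3 : (2 : ℝ) ≤ Real.exp 1 := by
        have := Real.add_one_le_exp 1
        linarith
      calc (2 : ℝ) ^ ⌊τ * n⌋₊ ≤ (Real.exp 1) ^ ⌊τ * n⌋₊ := pow_le_pow_left₀ (by norm_num) h3 _
        _ = Real.exp ((⌊τ * n⌋₊ : ℕ) * 1) := by rw [Real.exp_nat_mul]
        _ ≤ Real.exp (L / 4 * n) := by
          apply Real.exp_le_exp.2
          rw [mul_one]
          exact h2
    have f4 : ρ0 ^ ⌈ε1 / 4 * n⌉₊ ≤ Real.exp (-L * n) := by
      have h2 : ε1 / 4 * n ≤ ((⌈ε1 / 4 * n⌉₊ : ℕ) : ℝ) := Nat.le_ceil _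
      have h3 : ρ0 ^ ⌈ε1 / 4 * n⌉₊ = Real.exp (Real.log ρ0 * (⌈ε1 / 4 * n⌉₊ : ℕ)) :=
        pow_eq_exp ρ0 hρpos _
      rw [h3]
      apply Real.exp_le_exp.2
      have h4 : Real.log ρ0 = -L0 := by rw [hL0]; ring
      rw [h4]
      have h5 := mul_le_mul_of_nonneg_left h2 hL0pos.le
      calc -L0 * (⌈ε1 / 4 * n⌉₊ : ℕ) = -(L0 * (⌈ε1 / 4 * n⌉₊ : ℕ)) := by ring
        _ ≤ -(L0 * (ε1 / 4 * n)) := by linarith
        _ = _ := by rw [hL]; ring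
    calc (x ^ ⌊(n : ℝ) / h ^ 2⌋₊)⁻¹ * B ^ ⌊cN * n + 4⌋₊ * (2 ^ ⌊τ * n⌋₊ * ρ0 ^ ⌈ε1 / 4 * n⌉₊)
        ≤ Real.exp (L / 4 * n) * (B ^ 4 * Real.exp (L / 8 * n)) *
          (Real.exp (L / 4 * n) * Real.exp (-L * n)) := by gcongr
      _ = B ^ 4 * (Real.exp (L / 4 * n) * Real.exp (L / 8 * n) *
          (Real.exp (L / 4 * n) * Real.exp (-L * n))) := by ring
      _ = B ^ 4 * Real.exp (-(3 / 8 * L) * n) := by
          rw [← Real.exp_add, ← Real.exp_add, ← Real.exp_add]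
          congr 2
          ring
  have hP1 := Pr_mono hp0 hp1 hdet
  have hP2 := Pr_or hp0 hp1 (fun G => ((¬ OpN p C G ∨ ¬ DG p δ0 G) ∨ ¬ SP c1 ε1 G) ∨ ¬ NA cN κ G) NE
  have hP3 := Pr_or hp0 hp1 (fun G : SimpleGraph (Fin n) =>
    (¬ OpN p C G ∨ ¬ DG p δ0 G) ∨ ¬ SP c1 ε1 G) (fun G => ¬ NA cN κ G)
  have hP4 := Pr_or hp0 hp1 (fun G : SimpleGraph (Fin n) =>
    (¬ OpN p C G ∨ ¬ DG p δ0 G)) (fun G => ¬ SP c1 ε1 G)
  have hP5 := Pr_or hp0 hp1 (fun G : SimpleGraph (Fin n) => ¬ OpN p C G) (fun G => ¬ DG p δ0 G)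
  linarith

end Pool.Agent.W766.ChG3

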