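import Pool.Agent.W766.ChES
import Pool.Agent.W766.ChG3.Dim

set_option autoImplicit false
open scoped Classical
open Finset Filter Topology

namespace Pool.Agent.W766.ChGAP
open Pool.Agent.W839.Ch Pool.Agent.W766.ChG3 Pool.Agent.W766.ChES

noncomputable def eigH {n : ℕ} (A : Fin n → Fin n → ℝ) (hH : (Matrix.of A).IsHermitian) :
    Eig A where
  lam := hH.eigenvalues
  e := fun i v => hH.eigenvectorBasis i v
  orth := by
    intro i j
    have h := hH.eigenvectorBasis.orthonormal
    rw [orthonormal_iff_ite] at h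
    have h2 := h i j
    rw [← h2]
    rw [EuclideanSpace.inner_eq_star_dotProduct]
    simp [dotProduct, mul_comm]
  eig := by
    intro i v
    have h := hH.mulVec_eigenvectorBasis i
    have h2 := congrFun h v
    simpa [Matrix.mulVec, dotProduct] using h2
  expand := by
    intro y v
    have h := hH.eigenvectorBasis.sum_repr (WithLp.toLp 2 y)
    have h2 := congrArg (fun z : EuclideanSpace ℝ (Fin n) => z v) h
    simp only at h2
    have h3 : ∀ i, hH.eigenvectorBasis.repr (WithLp.toLp 2 y) i
        = ∑ u, y u * hH.eigenvectorBasis i u := by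
      intro i
      rw [OrthonormalBasis.repr_apply_apply, EuclideanSpace.inner_eq_star_dotProduct]
      simp [dotProduct]
    simp only [h3] at h2
    rw [← h2]
    simp [Finset.sum_apply]

lemma roots_count {n : ℕ} (A : Fin n → Fin n → ℝ) (hH : (Matrix.of A).IsHermitian) (t : ℝ) :
    ((Matrix.of A).charpoly.roots.filter (fun x => x ≤ t)).card
      = (Finset.univ.filter (fun i => (eigH A hH).lam i ≤ t)).card := by
  rw [hH.roots_charpoly_eq_eigenvalues, Multiset.filter_map, Multiset.card_map]
  rfl

lemma inner_c {n : ℕ} {M : Fin n → Fin n → ℝ} (E : Eig M) (x y : Fin n → ℝ) :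
    ∑ v, x v * y v = ∑ i, E.c x i * E.c y i := by
  have h1 : ∀ v, x v * y v = ∑ i, E.c x i * (y v * E.e i v) := by
    intro v
    conv_lhs => rw [E.expand x v]
    rw [Finset.sum_mul]
    apply Finset.sum_congr rfl
    intro i _
    unfold Eig.c
    ring
  rw [Finset.sum_congr rfl (fun v _ => h1 v), Finset.sum_comm]
  apply Finset.sum_congr rfl
  intro i _
  rw [← Finset.mul_sum]
  rfl

lemma form_c {n : ℕ} {M : Fin n → Fin n → ℝ} (hM : ∀ u v, M u v = M v u) (E : Eig M)
    (x : Fin n → ℝ) :
    ∑ v, x v * ∑ u, M v u * x u = ∑ i, E.lam i * E.c x i ^ 2 := by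
  have h := inner_c E x (fun v => ∑ u, M v u * x u)
  rw [h]
  apply Finset.sum_congr rfl
  intro i _
  have h2 := E.c_apply hM 0 x i
  simp only [zero_mul, sub_zero] at h2
  rw [h2]
  ring

/-- two eigenvalues `≤ t` give a vector in the kernel of a functional with small form -/
lemma lemA {n : ℕ} {M : Fin n → Fin n → ℝ} (hM : ∀ u v, M u v = M v u) (E : Eig M) (t : ℝ)
    (h2 : 2 ≤ (Finset.univ.filter (fun i => E.lam i ≤ t)).card) (ψ : (Fin n → ℝ) →ₗ[ℝ] ℝ) :
    ∃ x : Fin n → ℝ, x ≠ 0 ∧ ψ x = 0 ∧ ∑ v, x v * ∑ u, M v u * x u ≤ t * sn x := by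
  set S := Finset.univ.filter (fun i => E.lam i ≤ t) with hS
  let L : (S → ℝ) →ₗ[ℝ] (Fin n → ℝ) :=
    { toFun := fun k v => ∑ i : S, k i * E.e i v
      map_add' := by
        intro k k'
        funext v
        simp [add_mul, Finset.sum_add_distrib]
      map_smul' := by
        intro t k
        funext v
        simp [Finset.mul_sum, mul_assoc] }
  have hLapp : ∀ (k : S → ℝ) v, L k v = ∑ i : S, k i * E.e i v := fun _ _ => rfl
  have hLc : ∀ (k : S → ℝ) (i : S), E.c (L k) i = k i := by
    intro k i
    unfold Eig.c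
    simp_rw [hLapp, Finset.sum_mul]
    rw [Finset.sum_comm]
    have : ∀ j : S, ∑ v, k j * E.e j v * E.e i v = if j = i then k j else 0 := by
      intro j
      have h := E.orth j i
      calc ∑ v, k j * E.e j v * E.e i v = k j * ∑ v, E.e j v * E.e i v := by
            rw [Finset.mul_sum]
            apply Finset.sum_congr rfl
            intro v _
            ring
        _ = _ := by
            rw [h]
            by_cases hji : j = i
            · simp [hji]
            · have : (j : Fin n) ≠ i := fun h => hji (Subtype.ext h)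
              simp [hji, this]
    simp_rw [this]
    simp
  have hLc0 : ∀ (k : S → ℝ) (i : Fin n), i ∉ S → E.c (L k) i = 0 := by
    intro k i hi
    unfold Eig.c
    simp_rw [hLapp, Finset.sum_mul]
    rw [Finset.sum_comm]
    apply Finset.sum_eq_zero
    intro j _
    have h := E.orth j i
    have hji : (j : Fin n) ≠ i := fun h => hi (h ▸ j.2)
    calc ∑ v, k j * E.e j v * E.e i v = k j * ∑ v, E.e j v * E.e i v := by
          rw [Finset.mul_sum]
          apply Finset.sum_congr rfl
          intro v _
          ring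
      _ = 0 := by rw [h]; simp [hji]
  have hker : LinearMap.ker (ψ.comp L) ≠ ⊥ := by
    apply LinearMap.ker_ne_bot_of_finrank_lt
    simp only [Module.finrank_self, Module.finrank_fintype_fun_eq_card, Fintype.card_coe]
    omega
  obtain ⟨k, hk, hk0⟩ := (Submodule.ne_bot_iff _).1 hker
  refine ⟨L k, ?_, hk, ?_⟩
  · intro h0
    apply hk0
    funext i
    rw [← hLc k i, h0]
    simp [Eig.c]
  · rw [form_c hM E, E.parseval, Finset.mul_sum]
    apply Finset.sum_le_sum
    intro i _
    by_cases hi : i ∈ S
    · exact mul_le_mul_of_nonneg_right (Finset.mem_filter.1 hi).2 (sq_nonneg _)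
    · rw [hLc0 k i hi]; simp

/-- a two dimensional space with small form gives two eigenvalues `≤ t` -/
lemma lemB {n : ℕ} {M : Fin n → Fin n → ℝ} (hM : ∀ u v, M u v = M v u) (E : Eig M) (t : ℝ)
    (g1 g2 : Fin n → ℝ) (hind : ∀ α β : ℝ, (∀ v, α * g1 v + β * g2 v = 0) → α = 0 ∧ β = 0)
    (hf : ∀ α β : ℝ, ∑ v, (α * g1 v + β * g2 v) * ∑ u, M v u * (α * g1 u + β * g2 u)
      ≤ t * sn (fun v => α * g1 v + β * g2 v)) :
    2 ≤ (Finset.univ.filter (fun i => E.lam i ≤ t)).card := by
  by_contra hcon
  push Not at hcon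
  set S := Finset.univ.filter (fun i => E.lam i ≤ t) with hS
  let φ : (ℝ × ℝ) →ₗ[ℝ] (S → ℝ) :=
    { toFun := fun ab i => E.c (fun v => ab.1 * g1 v + ab.2 * g2 v) i
      map_add' := by
        intro x y
        funext i
        simp only [Eig.c, Prod.fst_add, Prod.snd_add, Pi.add_apply]
        rw [← Finset.sum_add_distrib]
        apply Finset.sum_congr rfl
        intro v _
        ring
      map_smul' := by
        intro s x
        funext i
        simp only [Eig.c, Prod.smul_fst, Prod.smul_snd, smul_eq_mul, Pi.smul_apply,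
          RingHom.id_apply]
        rw [Finset.mul_sum]
        apply Finset.sum_congr rfl
        intro v _
        ring }
  have hker : LinearMap.ker φ ≠ ⊥ := by
    apply LinearMap.ker_ne_bot_of_finrank_lt
    simp only [Module.finrank_prod, Module.finrank_self, Module.finrank_fintype_fun_eq_card,
      Fintype.card_coe]
    omega
  obtain ⟨⟨α, β⟩, hab, hne⟩ := (Submodule.ne_bot_iff _).1 hker
  set x : Fin n → ℝ := fun v => α * g1 v + β * g2 v with hx
  have hc : ∀ i ∈ S, E.c x i = 0 := fun i hi => congrFun (show φ (α, β) = 0 from hab) ⟨i, hi⟩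
  have h1 := hf α β
  have h2 := form_c hM E x
  have h3 : ∑ v, (α * g1 v + β * g2 v) * ∑ u, M v u * (α * g1 u + β * g2 u)
      = ∑ i, E.lam i * E.c x i ^ 2 := h2
  rw [h3] at h1
  rw [← hx, E.parseval x, Finset.mul_sum] at h1
  have h4 : ∀ i, E.c x i = 0 := by
    by_contra hcon2
    push Not at hcon2
    obtain ⟨i0, hi0⟩ := hcon2
    have hi0S : i0 ∉ S := fun h => hi0 (hc i0 h)
    have : ∑ i, t * E.c x i ^ 2 < ∑ i, E.lam i * E.c x i ^ 2 := by
      apply Finset.sum_lt_sum
      · intro i _
        by_cases hi : i ∈ S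
        · rw [hc i hi]; simp
        · apply mul_le_mul_of_nonneg_right _ (sq_nonneg _)
          rw [hS] at hi
          simp only [Finset.mem_filter, Finset.mem_univ, true_and, not_le] at hi
          exact hi.le
      · refine ⟨i0, Finset.mem_univ _, ?_⟩
        apply mul_lt_mul_of_pos_right
        · rw [hS] at hi0S
          simp only [Finset.mem_filter, Finset.mem_univ, true_and, not_le] at hi0S
          exact hi0S
        · positivity
    linarith
  have h5 : ∀ v, x v = 0 := by
    intro v
    have := E.expand x v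
    rw [this]
    apply Finset.sum_eq_zero
    intro i _
    have h6 : ∑ u, x u * E.e i u = 0 := h4 i
    rw [h6, zero_mul]
  have h6 := hind α β h5
  apply hne
  rw [h6.1, h6.2]
  rfl

/-! ## the normalised Laplacian -/

/-- normalised Laplacian matrix -/
noncomputable def Lm {n : ℕ} (H : SimpleGraph (Fin n)) (i j : Fin n) : ℝ :=
  (if i = j then (1 : ℝ) else 0) -
    (if H.Adj i j then (1 : ℝ) else 0) /
      Real.sqrt ((∑ k : Fin n, if H.Adj i k then (1 : ℝ) else 0) *
        (∑ k : Fin n, if H.Adj j k then (1 : ℝ) else 0))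

lemma Lm_eq {n : ℕ} (H : SimpleGraph (Fin n)) (i j : Fin n) :
    Lm H i j = (if i = j then (1 : ℝ) else 0) - adj H i j / Real.sqrt (deg H i * deg H j) := rfl

lemma Lm_symm {n : ℕ} (H : SimpleGraph (Fin n)) (i j : Fin n) : Lm H i j = Lm H j i := by
  rw [Lm_eq, Lm_eq, adj_symm H i j, mul_comm (deg H i)]
  by_cases h : i = j
  · simp [h]
  · simp [h, Ne.symm h]

lemma gapF_eq {n : ℕ} (H : SimpleGraph (Fin n)) : gapF n H
    = sInf {t : ℝ | 2 ≤ ((Matrix.of (Lm H)).charpoly.roots.filter (fun x => x ≤ t)).card} := rfl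

lemma Lm_herm {n : ℕ} (H : SimpleGraph (Fin n)) : (Matrix.of (Lm H)).IsHermitian := by
  ext u v
  simp [Matrix.conjTranspose_apply, Lm_symm H u v]

/-- the form of `L` in terms of `y = D^{-1/2} x` -/
lemma Lm_form {n : ℕ} (H : SimpleGraph (Fin n)) (hd : ∀ v, 0 < deg H v) (y : Fin n → ℝ) :
    ∑ v, (Real.sqrt (deg H v) * y v) * ∑ u, Lm H v u * (Real.sqrt (deg H u) * y u)
      = ∑ v, deg H v * y v ^ 2 - ∑ u, ∑ v, adj H u v * y u * y v := by
  rw [← Finset.sum_sub_distrib]
  apply Finset.sum_congr rfl
  intro v _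
  have hv := Real.sqrt_pos.2 (hd v)
  have hv2 := Real.mul_self_sqrt (hd v).le
  rw [Finset.mul_sum]
  have h1 : ∀ u, (Real.sqrt (deg H v) * y v) * (Lm H v u * (Real.sqrt (deg H u) * y u))
      = (if v = u then deg H v * y v ^ 2 else 0) - adj H v u * y v * y u := by
    intro u
    have hu := Real.sqrt_pos.2 (hd u)
    rw [Lm_eq, Real.sqrt_mul (hd v).le]
    by_cases h : v = u
    · subst h
      have : adj H v v = 0 := by unfold adj; simp
      rw [if_pos rfl, if_pos rfl, this]
      simp only [zero_div, sub_zero, one_mul, zero_mul]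
      calc Real.sqrt (deg H v) * y v * (Real.sqrt (deg H v) * y v)
          = (Real.sqrt (deg H v) * Real.sqrt (deg H v)) * y v ^ 2 := by ring
        _ = _ := by rw [hv2]
    · rw [if_neg h, if_neg h]
      field_simp
      ring
  rw [Finset.sum_congr rfl (fun u _ => h1 u), Finset.sum_sub_distrib, Finset.sum_ite_eq]
  simp

lemma sn_scaled {n : ℕ} (H : SimpleGraph (Fin n)) (hd : ∀ v, 0 < deg H v) (y : Fin n → ℝ) :
    sn (fun v => Real.sqrt (deg H v) * y v) = ∑ v, deg H v * y v ^ 2 := by
  unfold sn
  apply Finset.sum_congr rfl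
  intro v _
  rw [mul_pow, Real.sq_sqrt (hd v).le]

theorem gap2 : S_GAP2 := by
  intro k H hd θ φ hφ
  rw [gapF_eq]
  have hH := Lm_herm H
  set E := eigH (Lm H) hH with hE
  apply le_csInf
  · -- nonempty
    obtain ⟨t, ht⟩ : ∃ t : ℝ, ∀ i, E.lam i ≤ t := by
      obtain ⟨t, ht⟩ := (Set.finite_range E.lam).bddAbove
      exact ⟨t, fun i => ht (Set.mem_range_self i)⟩
    refine ⟨t, ?_⟩
    change 2 ≤ _
    rw [roots_count (Lm H) hH t]
    have : (Finset.univ.filter (fun i => (eigH (Lm H) hH).lam i ≤ t)) = Finset.univ := by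
      apply Finset.filter_true_of_mem
      intro i _
      exact ht i
    rw [this, Finset.card_univ, Fintype.card_fin]
    omega
  · intro t ht
    change 2 ≤ _ at ht
    rw [roots_count (Lm H) hH t] at ht
    let sc' : (Fin (k + 2) → ℝ) →ₗ[ℝ] (Fin (k + 2) → ℝ) :=
      { toFun := fun x v => x v / Real.sqrt (deg H v)
        map_add' := by intro x y; funext v; simp [add_div]
        map_smul' := by intro s x; funext v; simp [mul_div_assoc] }
    obtain ⟨x, hx0, hψ, hfx⟩ := lemA (Lm_symm H) E t ht (φ.comp sc')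
    set y : Fin (k + 2) → ℝ := sc' x with hy
    have hxy : ∀ v, x v = Real.sqrt (deg H v) * y v := by
      intro v
      have := (Real.sqrt_pos.2 (hd v)).ne'
      change x v = Real.sqrt (deg H v) * (x v / Real.sqrt (deg H v))
      field_simp
    have h1 := hφ y hψ
    have h2 := Lm_form H hd y
    have h3 := sn_scaled H hd y
    have hxf : x = fun v => Real.sqrt (deg H v) * y v := funext hxy
    rw [hxf] at hfx
    rw [h3, h2] at hfx
    have hpos : 0 < ∑ v, deg H v * y v ^ 2 := by
      rw [← h3, ← hxf]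
      rcases (Finset.sum_nonneg (fun v _ => sq_nonneg (x v))).eq_or_lt with h0 | h0
      · exfalso
        apply hx0
        funext v
        have := (Finset.sum_eq_zero_iff_of_nonneg (fun v _ => sq_nonneg (x v))).1 h0.symm v
          (Finset.mem_univ v)
        exact pow_eq_zero_iff two_ne_zero |>.1 this
      · exact h0
    have h4 : (1 - θ) * ∑ v, deg H v * y v ^ 2 ≤ t * ∑ v, deg H v * y v ^ 2 := by
      refine le_trans ?_ hfx
      linarith
    exact le_of_mul_le_mul_right h4 hpos

/-- the form of `A` is at most the form of `D` -/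
lemma form_le {n : ℕ} (G : SimpleGraph (Fin n)) (x : Fin n → ℝ) :
    ∑ u, ∑ v, adj G u v * x u * x v ≤ ∑ v, deg G v * x v ^ 2 := by
  have h1 : ∑ u, ∑ v, adj G u v * x u * x v
      ≤ ∑ u, ∑ v, (adj G u v * x u ^ 2 / 2 + adj G u v * x v ^ 2 / 2) := by
    apply Finset.sum_le_sum; intro u _
    apply Finset.sum_le_sum; intro v _
    have := adj_nonneg G u v
    nlinarith [mul_nonneg this (sq_nonneg (x u - x v))]
  have h2 : ∑ u, ∑ v, adj G u v * x u ^ 2 / 2 = (∑ v, deg G v * x v ^ 2) / 2 := by
    rw [Finset.sum_div]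
    apply Finset.sum_congr rfl; intro u _
    unfold deg
    rw [Finset.sum_mul, Finset.sum_div]
  have h3 : ∑ u, ∑ v, adj G u v * x v ^ 2 / 2 = (∑ v, deg G v * x v ^ 2) / 2 := by
    rw [Finset.sum_comm, ← h2]
    apply Finset.sum_congr rfl; intro u _
    apply Finset.sum_congr rfl; intro v _
    rw [adj_symm]
  refine le_trans h1 (le_of_eq ?_)
  simp_rw [Finset.sum_add_distrib]
  rw [h2, h3]
  ring

theorem gap1 : S_GAP1 := by
  intro k G hd E
  apply le_antisymm
  · -- upper bound
    rw [gapF_eq]
    have hH := Lm_herm G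
    set F := eigH (Lm G) hH with hF
    have hbdd : BddBelow {t : ℝ | 2 ≤ ((Matrix.of (Lm G)).charpoly.roots.filter
        (fun x => x ≤ t)).card} := by
      obtain ⟨s, hs⟩ := (Set.finite_range F.lam).bddBelow
      refine ⟨s, ?_⟩
      intro t ht
      change 2 ≤ _ at ht
      rw [roots_count (Lm G) hH t] at ht
      have : (Finset.univ.filter (fun i => (eigH (Lm G) hH).lam i ≤ t)).Nonempty := by
        rw [← Finset.card_pos]; omega
      obtain ⟨i, hi⟩ := this
      exact le_trans (hs (Set.mem_range_self i)) (Finset.mem_filter.1 hi).2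
    apply csInf_le hbdd
    change 2 ≤ _
    rw [roots_count (Lm G) hH]
    set f0 := E.f 0 with hf0
    have hf0n : ∑ v, deg G v * f0 v * f0 v = 1 := by
      have := E.orth 0 0
      simpa using this
    have hf0p : ∑ v, deg G v * f0 v = 0 := E.mem 0
    have hf0e : ∑ u, ∑ v, adj G u v * f0 u * f0 v = E.θ 0 := by
      have := E.eig 0 f0 (E.mem 0)
      rw [this, hf0n, mul_one]
    have hθ : E.θ 0 ≤ 1 := by
      rw [← hf0e, ← hf0n]
      refine le_trans (form_le G f0) (le_of_eq ?_)
      apply Finset.sum_congr rfl; intro v _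
      ring
    have hdegsum : 0 < ∑ v, deg G v := Finset.sum_pos (fun v _ => hd v) Finset.univ_nonempty
    -- norm and form of the combinations
    have hnorm : ∀ α β : ℝ, ∑ v, deg G v * (α + β * f0 v) ^ 2 = α ^ 2 * ∑ v, deg G v + β ^ 2 := by
      intro α β
      have : ∀ v, deg G v * (α + β * f0 v) ^ 2 = α ^ 2 * deg G v + 2 * α * β * (deg G v * f0 v)
          + β ^ 2 * (deg G v * f0 v * f0 v) := by
        intro v; ring
      rw [Finset.sum_congr rfl (fun v _ => this v), Finset.sum_add_distrib, Finset.sum_add_distrib,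
        ← Finset.mul_sum, ← Finset.mul_sum, ← Finset.mul_sum, hf0p, hf0n]
      ring
    have hform : ∀ α β : ℝ, ∑ u, ∑ v, adj G u v * (α + β * f0 u) * (α + β * f0 v)
        = α ^ 2 * ∑ v, deg G v + β ^ 2 * E.θ 0 := by
      intro α β
      have h1 : ∀ u v, adj G u v * (α + β * f0 u) * (α + β * f0 v)
          = α ^ 2 * adj G u v + α * β * (adj G u v * f0 u) + α * β * (adj G u v * f0 v)
            + β ^ 2 * (adj G u v * f0 u * f0 v) := by
        intro u v; ring
      simp_rw [h1, Finset.sum_add_distrib, ← Finset.mul_sum]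
      rw [hf0e]
      have h2 : ∑ u, ∑ v, adj G u v * f0 u = 0 := by
        rw [← hf0p]
        apply Finset.sum_congr rfl; intro u _
        rw [← Finset.sum_mul]
        rfl
      have h3 : ∑ u, ∑ v, adj G u v * f0 v = 0 := by
        rw [Finset.sum_comm, ← h2]
        apply Finset.sum_congr rfl; intro u _
        apply Finset.sum_congr rfl; intro v _
        rw [adj_symm]
      have h4 : ∑ u, ∑ v, adj G u v = ∑ v, deg G v := rfl
      rw [h2, h3, h4]
      ring
    apply lemB (Lm_symm G) F (1 - E.θ 0) (fun v => Real.sqrt (deg G v) * 1)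
      (fun v => Real.sqrt (deg G v) * f0 v)
    · intro α β h
      have h1 : ∀ v, α + β * f0 v = 0 := by
        intro v
        have h2 := h v
        have h3 := (Real.sqrt_pos.2 (hd v)).ne'
        have h4 : Real.sqrt (deg G v) * (α + β * f0 v) = 0 := by linarith
        exact (mul_eq_zero.1 h4).resolve_left h3
      have h2 := hnorm α β
      have h3 : ∑ v, deg G v * (α + β * f0 v) ^ 2 = 0 := by
        apply Finset.sum_eq_zero
        intro v _
        rw [h1 v]; simp
      rw [h3] at h2
      have h5 : α ^ 2 * ∑ v, deg G v = 0 := by nlinarith [sq_nonneg β, mul_nonneg (sq_nonneg α) hdegsum.le]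
      have h6 : β ^ 2 = 0 := by nlinarith [sq_nonneg β, mul_nonneg (sq_nonneg α) hdegsum.le]
      refine ⟨?_, pow_eq_zero_iff two_ne_zero |>.1 h6⟩
      rcases mul_eq_zero.1 h5 with h7 | h7
      · exact pow_eq_zero_iff two_ne_zero |>.1 h7
      · exact absurd h7 hdegsum.ne'
    · intro α β
      have e : (fun v => α * (Real.sqrt (deg G v) * 1) + β * (Real.sqrt (deg G v) * f0 v))
          = fun v => Real.sqrt (deg G v) * (α + β * f0 v) := by
        funext v; ring
      have e2 : ∑ v, (α * (Real.sqrt (deg G v) * 1) + β * (Real.sqrt (deg G v) * f0 v)) *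
          ∑ u, Lm G v u * (α * (Real.sqrt (deg G u) * 1) + β * (Real.sqrt (deg G u) * f0 u))
          = ∑ v, (Real.sqrt (deg G v) * (α + β * f0 v)) * ∑ u, Lm G v u *
            (Real.sqrt (deg G u) * (α + β * f0 u)) := by
        apply Finset.sum_congr rfl; intro v _
        have e3 : ∀ u, α * (Real.sqrt (deg G u) * 1) + β * (Real.sqrt (deg G u) * f0 u)
            = Real.sqrt (deg G u) * (α + β * f0 u) := fun u => by ring
        simp_rw [e3]
      rw [e, e2, Lm_form G hd (fun v => α + β * f0 v), sn_scaled G hd (fun v => α + β * f0 v),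
        hnorm, hform]
      have : 0 ≤ (1 - E.θ 0) * (α ^ 2 * ∑ v, deg G v) := by
        apply mul_nonneg (by linarith)
        positivity
      nlinarith
  · -- lower bound from gap2
    let φ : (Fin (k + 2) → ℝ) →ₗ[ℝ] ℝ :=
      { toFun := fun x => ∑ v, deg G v * x v
        map_add' := by intro x y; simp [mul_add, Finset.sum_add_distrib]
        map_smul' := by
          intro t x
          simp only [Pi.smul_apply, smul_eq_mul, RingHom.id_apply, Finset.mul_sum]
          exact Finset.sum_congr rfl (fun v _ => by ring) }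
    apply gap2 k G hd (E.θ 0) φ
    intro x hx
    have hxW : x ∈ perp (deg G) := hx
    set a : ↥(Finset.univ : Finset (Fin (k + 1))) → ℝ := fun i =>
      ∑ u, deg G u * x u * E.f i u with ha
    have hxa : x = comb E Finset.univ a := by
      funext v
      rw [E.expand x hxW v]
      change _ = ∑ i : ↥(Finset.univ : Finset (Fin (k + 1))), a i * E.f i v
      rw [Finset.sum_coe_sort Finset.univ (fun i => (∑ u, deg G u * x u * E.f i u) * E.f i v)]
    have h1 := comb_form E Finset.univ a
    have h2 := comb_norm E Finset.univ a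
    rw [← hxa] at h1 h2
    have h3 : ∑ v, deg G v * x v ^ 2 = ∑ i, a i ^ 2 := by
      rw [← h2]
      apply Finset.sum_congr rfl; intro v _
      ring
    rw [h1, h3, Finset.mul_sum]
    apply Finset.sum_le_sum
    intro i _
    apply mul_le_mul_of_nonneg_right _ (sq_nonneg _)
    exact E.anti (Fin.zero_le _)

end Pool.Agent.W766.ChGAP
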