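import Pool.Agent.W766.ChNA.Bad
import Pool.Agent.W766.ChG3.Det

set_option autoImplicit false
open scoped Classical
open Finset Filter Topology

namespace Pool.Agent.W766.ChNA
open Pool.Agent.W839.Ch Pool.Agent.W766.ChG3

lemma wt_nonneg {n : ℕ} {p : ℝ} (h0 : 0 < p) (h1 : p < 1) (G : SimpleGraph (Fin n)) :
    0 ≤ wt n p G := by
  unfold wt
  have : 0 ≤ 1 - p := by linarith
  positivity

lemma Pr_mono {n : ℕ} {p : ℝ} (h0 : 0 < p) (h1 : p < 1) {P Q : SimpleGraph (Fin n) → Prop}
    (h : ∀ G, P G → Q G) : Pr n p P ≤ Pr n p Q := by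
  unfold Pr
  apply Finset.sum_le_sum
  intro G _
  have := wt_nonneg h0 h1 G
  by_cases hP : P G
  · simp [hP, h G hP]
  · simp only [hP, if_false]
    split_ifs <;> simp [this]

lemma Pr_nonneg {n : ℕ} {p : ℝ} (h0 : 0 < p) (h1 : p < 1) (P : SimpleGraph (Fin n) → Prop) :
    0 ≤ Pr n p P := by
  unfold Pr
  apply Finset.sum_nonneg
  intro G _
  have := wt_nonneg h0 h1 G
  split_ifs <;> simp [this]

/-- union bound over a finite set -/
lemma Pr_exists {n : ℕ} {p : ℝ} (h0 : 0 < p) (h1 : p < 1) {κ : Type} (S : Finset κ)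
    (P : κ → SimpleGraph (Fin n) → Prop) :
    Pr n p (fun G => ∃ g ∈ S, P g G) ≤ ∑ g ∈ S, Pr n p (P g) := by
  unfold Pr
  rw [Finset.sum_comm]
  apply Finset.sum_le_sum
  intro G _
  have hw := wt_nonneg h0 h1 G
  split_ifs with h
  · obtain ⟨g, hg, hP⟩ := h
    have := Finset.single_le_sum (f := fun g => if P g G then wt n p G else 0)
      (fun g _ => by split_ifs <;> simp [hw]) hg
    simpa [hP] using this
  · apply Finset.sum_nonneg
    intro g _
    split_ifs <;> simp [hw]

/-- Markov for a number of bad vertices -/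
lemma Pr_markov {n : ℕ} {p : ℝ} (h0 : 0 < p) (h1 : p < 1) (B : Fin n → SimpleGraph (Fin n) → Prop)
    (P : SimpleGraph (Fin n) → Prop) (s : ℝ)
    (h : ∀ G, P G → s ≤ ((Finset.univ.filter (fun i => B i G)).card : ℝ)) :
    s * Pr n p P ≤ ∑ i, Pr n p (B i) := by
  unfold Pr
  rw [Finset.sum_comm, Finset.mul_sum]
  apply Finset.sum_le_sum
  intro G _
  have hw := wt_nonneg h0 h1 G
  have e : ∑ i, (if B i G then wt n p G else 0)
      = ((Finset.univ.filter (fun i => B i G)).card : ℝ) * wt n p G := by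
    rw [← Finset.sum_filter, Finset.sum_const, nsmul_eq_mul]
  rw [e]
  split_ifs with hP
  · exact mul_le_mul_of_nonneg_right (h G hP) hw
  · rw [mul_zero]
    positivity

/-- the deterministic leave-one-out argument -/
theorem many_bad {n : ℕ} (hn : 0 < n) {p : ℝ} (h0 : 0 < p) (h1 : p < 1) (G : SimpleGraph (Fin n))
    (c l κ : ℝ) (hc : 0 < c) (hκ : 0 < κ) (hκ2 : 64 * κ ^ 2 ≤ p * (1 - p) * c ^ 2)
    (hn2 : 2 ≤ c * n)
    (hN : c * n ≤ kf (Ec p G) l (κ * Real.sqrt n)) :
    c / 4 * n ≤ ((Finset.univ.filter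
      (fun i => bad p (c / 2) l (κ * Real.sqrt n) i G)).card : ℝ) := by
  have hn' : (0 : ℝ) < n := by exact_mod_cast hn
  have hs : 0 < Real.sqrt n := Real.sqrt_pos.2 hn'
  have hsq : Real.sqrt n ^ 2 = n := Real.sq_sqrt hn'.le
  have hs2 : 0 < p * (1 - p) := mul_pos h0 (by linarith)
  obtain ⟨r, hr⟩ : ∃ r : ℝ, r = κ * Real.sqrt n := ⟨_, rfl⟩
  have hr0 : 0 < r := by rw [hr]; positivity
  have hr2 : r ^ 2 = κ ^ 2 * n := by rw [hr, mul_pow, hsq]
  rw [← hr] at hN ⊢
  have hMs := Ec_symm p G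
  set E := eo (Ec p G) hMs with hE
  have hk : kf (Ec p G) l r = ((E.win l r).card : ℝ) := by
    unfold kf; rw [dif_pos hMs]
  rw [hk] at hN
  set Bd := Finset.univ.filter (fun i => bad p (c / 2) l r i G) with hBd
  have hgood : ∀ i, i ∉ Bd → pidiag E l r i ≤ c / 4 := by
    intro i hi
    have hMi := rem_symm (l + r + 1) i hMs
    set F := eo (rem (l + r + 1) i (Ec p G)) hMi with hF
    have hkF : kf (rem (l + r + 1) i (Ec p G)) l r = ((F.win l r).card : ℝ) := by
      unfold kf; rw [dif_pos hMi]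
    have hQF : Qf (rem (l + r + 1) i (Ec p G)) l r (fun v => Ec p G i v)
        = ∑ j ∈ F.win l r, (F.c (fun v => Ec p G i v) j) ^ 2 := by
      unfold Qf; rw [dif_pos hMi]
    have ht : r ^ 2 < ((l + r + 1) - l) ^ 2 := by nlinarith
    have h2 := pidiag_mul_le i hMs E F ht
    have h3 : (E.win l r).card ≤ (F.win l r).card + 1 := card_win_rem i hMs E F
    have h3' : ((E.win l r).card : ℝ) ≤ (F.win l r).card + 1 := by exact_mod_cast h3
    have h4 : c / 2 * n ≤ ((F.win l r).card : ℝ) := by linarith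
    have h5 : ¬ bad p (c / 2) l r i G := by
      intro hb
      exact hi (Finset.mem_filter.2 ⟨Finset.mem_univ _, hb⟩)
    unfold bad at h5
    rw [hkF, hQF] at h5
    push Not at h5
    have h6 := h5 h4
    set q := ∑ j ∈ F.win l r, (F.c (fun v => Ec p G i v) j) ^ 2
    have h7 : p * (1 - p) * c / 4 * n ≤ q := by
      calc p * (1 - p) * c / 4 * n = p * (1 - p) / 2 * (c / 2 * n) := by ring
        _ ≤ p * (1 - p) / 2 * ((F.win l r).card : ℝ) :=
            mul_le_mul_of_nonneg_left h4 (by positivity)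
        _ ≤ q := h6
    have hπ := pidiag_nonneg E l r i
    have h8 : pidiag E l r i * (p * (1 - p) * c / 4 * n) ≤ 4 * (κ ^ 2 * n) := by
      calc _ ≤ pidiag E l r i * q := mul_le_mul_of_nonneg_left h7 hπ
        _ ≤ 4 * r ^ 2 := h2
        _ = _ := by rw [hr2]
    have h9 : pidiag E l r i * (p * (1 - p) * c / 4 * n) ≤ c / 4 * (p * (1 - p) * c / 4 * n) := by
      refine le_trans h8 ?_
      have : 64 * κ ^ 2 * n ≤ p * (1 - p) * c ^ 2 * n := mul_le_mul_of_nonneg_right hκ2 hn'.le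
      nlinarith
    exact le_of_mul_le_mul_right h9 (by positivity)
  have hsum := sum_pidiag E l r
  have h10 : ∑ i, pidiag E l r i ≤ (Bd.card : ℝ) + n * (c / 4) := by
    calc ∑ i, pidiag E l r i ≤ ∑ i, ((if i ∈ Bd then (1 : ℝ) else 0) + c / 4) := by
          apply Finset.sum_le_sum
          intro i _
          by_cases hi : i ∈ Bd
          · rw [if_pos hi]
            have := pidiag_le_one E l r i
            linarith
          · rw [if_neg hi, zero_add]
            exact hgood i hi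
      _ = _ := by
          rw [Finset.sum_add_distrib, Finset.sum_const, Finset.card_univ, Fintype.card_fin,
            nsmul_eq_mul]
          simp
  rw [hsum] at h10
  have hcn : 0 < c * n := by positivity
  linarith

/-- probability that a fixed window contains many eigenvalues -/
theorem prob_window (hBIT : S_BIT) (hMIX : S_MIX) {n : ℕ} (hn : 0 < n) {p : ℝ} (h0 : 0 < p)
    (h1 : p < 1) (c l κ : ℝ) (hc : 0 < c) (hκ : 0 < κ) (hκ2 : 64 * κ ^ 2 ≤ p * (1 - p) * c ^ 2)
    (hn2 : 2 ≤ c * n) :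
    Pr n p (fun G => c * n ≤ kf (Ec p G) l (κ * Real.sqrt n))
      ≤ 192 / ((p * (1 - p)) ^ 2 * c ^ 2) / n := by
  have hn' : (0 : ℝ) < n := by exact_mod_cast hn
  have hs2 : 0 < p * (1 - p) := mul_pos h0 (by linarith)
  have h := Pr_markov h0 h1 (fun i G => bad p (c / 2) l (κ * Real.sqrt n) i G)
    (fun G => c * n ≤ kf (Ec p G) l (κ * Real.sqrt n)) (c / 4 * n)
    (fun G hG => many_bad hn h0 h1 G c l κ hc hκ hκ2 hn2 hG)
  have h2 : ∑ i : Fin n, Pr n p (fun G => bad p (c / 2) l (κ * Real.sqrt n) i G)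
      ≤ n * (24 / ((p * (1 - p)) ^ 2 * (c / 2 * n))) := by
    calc _ ≤ ∑ _i : Fin n, 24 / ((p * (1 - p)) ^ 2 * (c / 2 * n)) := by
          apply Finset.sum_le_sum
          intro i _
          exact prob_bad hBIT hMIX hn h0 h1 i (c / 2) l _ (by positivity) (by positivity)
      _ = _ := by rw [Finset.sum_const, Finset.card_univ, Fintype.card_fin, nsmul_eq_mul]
  have h3 := le_trans h h2
  have h4 : (n : ℝ) * (24 / ((p * (1 - p)) ^ 2 * (c / 2 * n)))
      = (c / 4 * n) * (192 / ((p * (1 - p)) ^ 2 * c ^ 2) / n) := by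
    field_simp
    norm_num
  rw [h4] at h3
  exact le_of_mul_le_mul_left h3 (by positivity)

/-- sum of squares of eigenvalues -/
lemma sum_lam_sq {n : ℕ} {M : Fin n → Fin n → ℝ} (E : Eig M) :
    ∑ j, E.lam j ^ 2 = ∑ v, ∑ u, M v u ^ 2 := by
  have h1 : ∀ v, ∑ u, M v u ^ 2 = ∑ j, (E.lam j * E.e j v) ^ 2 := by
    intro v
    have h2 := E.parseval (fun u => M v u)
    unfold sn at h2
    rw [h2]
    apply Finset.sum_congr rfl
    intro j _
    congr 1
    exact E.eig j v
  rw [Finset.sum_congr rfl (fun v _ => h1 v), Finset.sum_comm]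
  apply Finset.sum_congr rfl
  intro j _
  have h3 := E.orth j j
  simp only [if_true] at h3
  calc E.lam j ^ 2 = E.lam j ^ 2 * ∑ v, E.e j v * E.e j v := by rw [h3, mul_one]
    _ = _ := by
      rw [Finset.mul_sum]
      apply Finset.sum_congr rfl
      intro v _
      ring

lemma Ec_sq_le {n : ℕ} {p : ℝ} (h0 : 0 < p) (h1 : p < 1) (G : SimpleGraph (Fin n)) (u v : Fin n) :
    Ec p G u v ^ 2 ≤ 1 := by
  unfold Ec
  split_ifs
  · norm_num
  · have a1 := adj_nonneg G u v
    have a2 := adj_le_one G u v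
    nlinarith

/-- few large eigenvalues -/
lemma large_window {n : ℕ} (hn : 0 < n) {p : ℝ} (h0 : 0 < p) (h1 : p < 1)
    (G : SimpleGraph (Fin n)) (E : Eig (Ec p G)) (l κ T : ℝ) (hT : 0 < T)
    (hκ : 0 < κ) (hl : (T + κ) * Real.sqrt n ≤ |l|) :
    T ^ 2 * ((E.win l (κ * Real.sqrt n)).card : ℝ) ≤ n := by
  have hn' : (0 : ℝ) < n := by exact_mod_cast hn
  have hs : 0 < Real.sqrt n := Real.sqrt_pos.2 hn'
  have hsq : Real.sqrt n ^ 2 = n := Real.sq_sqrt hn'.le
  have h2 : ∀ j ∈ E.win l (κ * Real.sqrt n), T ^ 2 * n ≤ E.lam j ^ 2 := by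
    intro j hj
    unfold Eig.win at hj
    have hj2 := (Finset.mem_filter.1 hj).2
    have h3 : |E.lam j - l| ≤ κ * Real.sqrt n := abs_le_of_sq_le_sq hj2 (by positivity)
    have h4 : T * Real.sqrt n ≤ |E.lam j| := by
      have h5 : |l| ≤ |E.lam j| + |E.lam j - l| := by
        have e : l = E.lam j - (E.lam j - l) := by ring
        calc |l| = |E.lam j - (E.lam j - l)| := by rw [← e]
          _ ≤ _ := abs_sub _ _
      nlinarith
    calc T ^ 2 * n = (T * Real.sqrt n) ^ 2 := by rw [mul_pow, hsq]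
      _ ≤ |E.lam j| ^ 2 := pow_le_pow_left₀ (by positivity) h4 2
      _ = _ := sq_abs _
  have h5 : T ^ 2 * n * ((E.win l (κ * Real.sqrt n)).card : ℝ) ≤ n * n := by
    calc T ^ 2 * n * ((E.win l (κ * Real.sqrt n)).card : ℝ)
        = ∑ j ∈ E.win l (κ * Real.sqrt n), T ^ 2 * n := by
          rw [Finset.sum_const, nsmul_eq_mul]; ring
      _ ≤ ∑ j ∈ E.win l (κ * Real.sqrt n), E.lam j ^ 2 := Finset.sum_le_sum h2
      _ ≤ ∑ j, E.lam j ^ 2 := by
          apply Finset.sum_le_sum_of_subset_of_nonneg (Finset.subset_univ _)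
          intro j _ _
          positivity
      _ = ∑ v, ∑ u, Ec p G v u ^ 2 := sum_lam_sq E
      _ ≤ ∑ _v : Fin n, ∑ _u : Fin n, (1 : ℝ) := by
          apply Finset.sum_le_sum; intro v _
          apply Finset.sum_le_sum; intro u _
          exact Ec_sq_le h0 h1 G v u
      _ = n * n := by simp
  have h6 : n * (T ^ 2 * ((E.win l (κ * Real.sqrt n)).card : ℝ)) ≤ n * n := by linarith
  exact le_of_mul_le_mul_left h6 hn'

/-- deterministic part: windows of `E` control `NA` -/
theorem na_det {n : ℕ} (hn : 0 < n) {p : ℝ} (h0 : 0 < p) (h1 : p < 1)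
    (G : SimpleGraph (Fin n)) (c κ T : ℝ) (Gm : ℕ) (hc : 0 < c) (hκ : 0 < κ) (hT : 0 < T)
    (hT2 : 2 ≤ c * T ^ 2) (hn2 : 2 ≤ c * n) (hGm : (T + κ) / κ + 1 ≤ Gm)
    (hw : ¬ ∃ g ∈ Finset.Icc (-(Gm : ℤ)) Gm, c / 2 * n ≤ kf (Ec p G) ((g : ℝ) * (κ * Real.sqrt n))
      ((2 * κ) * Real.sqrt n)) : NA c κ G := by
  intro l W hW
  have hn' : (0 : ℝ) < n := by exact_mod_cast hn
  have hs : 0 < Real.sqrt n := Real.sqrt_pos.2 hn'
  have hsq : Real.sqrt n ^ 2 = n := Real.sq_sqrt hn'.le
  have hMs := Ec_symm p G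
  set E := eo (Ec p G) hMs with hE
  let φ : (Fin n → ℝ) →ₗ[ℝ] ℝ :=
    { toFun := fun y => ∑ v, y v
      map_add' := by intro y z; simp [Finset.sum_add_distrib]
      map_smul' := by intro t y; simp [Finset.mul_sum] }
  set Y : Submodule ℝ (Fin n → ℝ) := W ⊓ LinearMap.ker φ with hY
  have hdim : Module.finrank ℝ W ≤ Module.finrank ℝ Y + 1 := by
    have e1 := Submodule.finrank_sup_add_finrank_inf_eq W (LinearMap.ker φ)
    have e2 := LinearMap.finrank_range_add_finrank_ker φ
    have e3 : Module.finrank ℝ (LinearMap.range φ) ≤ 1 := by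
      have := Submodule.finrank_le (LinearMap.range φ)
      simpa using this
    have e4 : Module.finrank ℝ (W ⊔ LinearMap.ker φ : Submodule ℝ (Fin n → ℝ)) ≤ n := by
      have := Submodule.finrank_le (W ⊔ LinearMap.ker φ)
      simpa using this
    have e5 : Module.finrank ℝ (Fin n → ℝ) = n := by simp
    rw [e5] at e2
    rw [← hY] at e1
    omega
  -- on `Y`, `A y - l y = E y - (l + p) y`
  have hEy : ∀ y ∈ Y, ∀ v, ∑ u, Ec p G v u * y u = ∑ u, adj G v u * y u + p * y v := by
    intro y hy v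
    have hy0 : ∑ u, y u = 0 := hy.2
    have e : ∀ u, Ec p G v u * y u = adj G v u * y u - p * y u + (if v = u then p * y u else 0) := by
      intro u
      unfold Ec
      by_cases h : v = u
      · subst h
        have : adj G v v = 0 := by unfold adj; simp
        rw [if_pos rfl, if_pos rfl, this]; ring
      · rw [if_neg h, if_neg h]; ring
    rw [Finset.sum_congr rfl (fun u _ => e u), Finset.sum_add_distrib, Finset.sum_sub_distrib,
      ← Finset.mul_sum, hy0, Finset.sum_ite_eq]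
    simp
  have hYE : ∀ y ∈ Y, sn (fun v => ∑ u, Ec p G v u * y u - (l + p) * y v)
      ≤ (κ * Real.sqrt n) ^ 2 * sn y := by
    intro y hy
    have := hW y hy.1
    rw [mul_pow, hsq]
    refine le_trans (le_of_eq ?_) this
    unfold sn
    apply Finset.sum_congr rfl
    intro v _
    change (∑ u, Ec p G v u * y u - (l + p) * y v) ^ 2 = _
    rw [hEy y hy v]
    congr 1
    ring
  have hkf : ∀ l' r', kf (Ec p G) l' r' = ((E.win l' r').card : ℝ) := by
    intro l' r'; unfold kf; rw [dif_pos hMs]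
  have hYbound : (Module.finrank ℝ Y : ℝ) ≤ c / 2 * n := by
    by_cases hbig : (T + κ) * Real.sqrt n ≤ |l + p|
    · have e1 := dim_le E hMs (l + p) (κ * Real.sqrt n) Y hYE
      have e2 := large_window hn h0 h1 G E (l + p) κ T hT hκ hbig
      have e3 : (Module.finrank ℝ Y : ℝ) ≤ ((E.win (l + p) (κ * Real.sqrt n)).card : ℝ) := by
        exact_mod_cast e1
      have e4 : T ^ 2 * (Module.finrank ℝ Y : ℝ) ≤ n :=
        le_trans (mul_le_mul_of_nonneg_left e3 (by positivity)) e2
      have e5 : T ^ 2 * (Module.finrank ℝ Y : ℝ) ≤ T ^ 2 * (c / 2 * n) := by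
        refine le_trans e4 ?_
        nlinarith
      exact le_of_mul_le_mul_left e5 (by positivity)
    · push Not at hbig
      set D := κ * Real.sqrt n with hD
      have hDpos : 0 < D := by positivity
      set g : ℤ := ⌊(l + p) / D⌋ with hg
      have hg1 : (g : ℝ) * D ≤ l + p := by
        have := Int.floor_le ((l + p) / D)
        rw [← hg, le_div_iff₀ hDpos] at this
        exact this
      have hg2 : l + p < ((g : ℝ) + 1) * D := by
        have := Int.lt_floor_add_one ((l + p) / D)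
        rw [← hg, div_lt_iff₀ hDpos] at this
        exact this
      have hgm : g ∈ Finset.Icc (-(Gm:ℤ)) Gm := by
        have h1 : |(l + p) / D| ≤ (T + κ) / κ := by
          rw [abs_div, abs_of_pos hDpos, div_le_div_iff₀ hDpos hκ]
          calc |l + p| * κ ≤ ((T + κ) * Real.sqrt n) * κ :=
                mul_le_mul_of_nonneg_right hbig.le hκ.le
            _ = (T + κ) * D := by rw [hD]; ring
        have h2 := Int.floor_le ((l + p) / D)
        have h3 := Int.lt_floor_add_one ((l + p) / D)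
        rw [← hg] at h2 h3
        rw [abs_le] at h1
        rw [Finset.mem_Icc]
        constructor
        · have : -(Gm : ℝ) ≤ g := by linarith
          exact_mod_cast this
        · have : (g : ℝ) ≤ Gm := by linarith
          exact_mod_cast this
      have hYg : ∀ y ∈ Y, sn (fun v => ∑ u, Ec p G v u * y u - ((g : ℝ) * D) * y v)
          ≤ ((2 * κ) * Real.sqrt n) ^ 2 * sn y := by
        intro y hy
        have h1 := hYE y hy
        have h2 : ∀ v, (∑ u, Ec p G v u * y u - ((g : ℝ) * D) * y v) ^ 2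
            ≤ 2 * (∑ u, Ec p G v u * y u - (l + p) * y v) ^ 2 + 2 * D ^ 2 * y v ^ 2 := by
          intro v
          have e : ∑ u, Ec p G v u * y u - ((g : ℝ) * D) * y v
              = (∑ u, Ec p G v u * y u - (l + p) * y v) + (l + p - g * D) * y v := by ring
          rw [e]
          have h3 : (l + p - g * D) ^ 2 ≤ D ^ 2 := pow_le_pow_left₀ (by linarith) (by linarith) 2
          have h4 : ((l + p - g * D) * y v) ^ 2 ≤ D ^ 2 * y v ^ 2 := by
            rw [mul_pow]; exact mul_le_mul_of_nonneg_right h3 (sq_nonneg _)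
          have h5 : ∀ x z : ℝ, (x + z) ^ 2 ≤ 2 * x ^ 2 + 2 * z ^ 2 := by
            intro x z; nlinarith [sq_nonneg (x - z)]
          have h6 := h5 (∑ u, Ec p G v u * y u - (l + p) * y v) ((l + p - g * D) * y v)
          linarith
        calc sn (fun v => ∑ u, Ec p G v u * y u - ((g : ℝ) * D) * y v)
            ≤ ∑ v, (2 * (∑ u, Ec p G v u * y u - (l + p) * y v) ^ 2 + 2 * D ^ 2 * y v ^ 2) :=
              Finset.sum_le_sum (fun v _ => h2 v)
          _ = 2 * sn (fun v => ∑ u, Ec p G v u * y u - (l + p) * y v) + 2 * D ^ 2 * sn y := by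
              rw [Finset.sum_add_distrib, ← Finset.mul_sum, ← Finset.mul_sum]
              rfl
          _ ≤ 2 * (D ^ 2 * sn y) + 2 * D ^ 2 * sn y := by linarith
          _ = _ := by rw [hD]; ring
      have e1 := dim_le E hMs ((g : ℝ) * D) ((2 * κ) * Real.sqrt n) Y hYg
      have e3 : (Module.finrank ℝ Y : ℝ) ≤ ((E.win ((g : ℝ) * D) ((2 * κ) * Real.sqrt n)).card : ℝ) := by
        exact_mod_cast e1
      by_contra hcon
      push Not at hcon
      apply hw
      refine ⟨g, hgm, ?_⟩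
      rw [hkf]
      linarith
  have : (Module.finrank ℝ W : ℝ) ≤ Module.finrank ℝ Y + 1 := by exact_mod_cast hdim
  linarith

theorem main : S_BIT → S_MIX → S_NA := by
  intro hBIT hMIX p hp0 hp1 c hc
  have hs2 : 0 < p * (1 - p) := mul_pos hp0 (by linarith)
  -- choice of κ
  obtain ⟨κ, hκ, hκ2⟩ : ∃ κ : ℝ, 0 < κ ∧ 64 * (2 * κ) ^ 2 ≤ p * (1 - p) * (c / 2) ^ 2 := by
    refine ⟨Real.sqrt (p * (1 - p) * (c / 2) ^ 2 / 256), Real.sqrt_pos.2 (by positivity), ?_⟩
    rw [mul_pow, Real.sq_sqrt (by positivity)]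
    apply le_of_eq; ring
  refine ⟨κ, hκ, ?_⟩
  set T := Real.sqrt (2 / c) with hT
  have hTpos : 0 < T := Real.sqrt_pos.2 (by positivity)
  have hT2 : 2 ≤ c * T ^ 2 := by
    rw [hT, Real.sq_sqrt (by positivity)]
    apply le_of_eq; field_simp
  set Gm : ℕ := ⌈(T + κ) / κ + 1⌉₊ with hGm
  set K := (2 * (Gm : ℝ) + 1) * (192 / ((p * (1 - p)) ^ 2 * (c / 2) ^ 2)) with hK
  have hlim : Tendsto (fun n : ℕ => K / (n : ℝ)) atTop (𝓝 0) :=
    tendsto_const_div_atTop_nhds_zero_nat K
  apply squeeze_zero' (g := fun n : ℕ => K / (n : ℝ))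
  · exact Eventually.of_forall (fun n => Pr_nonneg hp0 hp1 _)
  · have e1 : ∀ᶠ n : ℕ in atTop, 0 < n := eventually_gt_atTop 0
    have e2 : ∀ᶠ n : ℕ in atTop, 4 ≤ c * n := by
      have : Tendsto (fun n : ℕ => c * (n : ℝ)) atTop atTop :=
        Tendsto.const_mul_atTop hc tendsto_natCast_atTop_atTop
      exact this.eventually_ge_atTop 4
    filter_upwards [e1, e2] with n hn hn4
    have hn' : (0 : ℝ) < n := by exact_mod_cast hn
    calc Pr n p (fun G => ¬ NA c κ G)
        ≤ Pr n p (fun G => ∃ g ∈ Finset.Icc (-(Gm : ℤ)) Gm,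
          c / 2 * n ≤ kf (Ec p G) ((g : ℝ) * (κ * Real.sqrt n)) ((2 * κ) * Real.sqrt n)) := by
          apply Pr_mono hp0 hp1
          intro G hG
          by_contra hcon
          exact hG (na_det hn hp0 hp1 G c κ T Gm hc hκ hTpos hT2 (by linarith)
            (Nat.le_ceil _) hcon)
      _ ≤ ∑ g ∈ Finset.Icc (-(Gm : ℤ)) Gm, Pr n p (fun G =>
          c / 2 * n ≤ kf (Ec p G) ((g : ℝ) * (κ * Real.sqrt n)) ((2 * κ) * Real.sqrt n)) :=
          Pr_exists hp0 hp1 _ _
      _ ≤ ∑ g ∈ Finset.Icc (-(Gm : ℤ)) Gm, 192 / ((p * (1 - p)) ^ 2 * (c / 2) ^ 2) / n := by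
          apply Finset.sum_le_sum
          intro g _
          exact prob_window hBIT hMIX hn hp0 hp1 (c / 2) _ (2 * κ) (by positivity)
            (by positivity) hκ2 (by linarith)
      _ = K / n := by
          rw [Finset.sum_const, nsmul_eq_mul, Int.card_Icc]
          have : ((Gm : ℤ) + 1 - -(Gm:ℤ)).toNat = 2 * Gm + 1 := by omega
          rw [this, hK]
          push_cast
          ring
  · exact hlim

end Pool.Agent.W766.ChNA
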