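import Pool.Agent.W668.Uni.Stmts

/-!
# UNI-LEAD: leading order of the period map
-/

set_option autoImplicit false

open Set MeasureTheory
open scoped ContDiff Topology

namespace Pool.Agent.W766.UniLead

open Pool.Agent.W668.Uni

theorem evX_coe (f : X) (z : I1) : evX f z = f z := by
  unfold evX
  rw [projIcc_val]

theorem extX {f g : X} (h : ∀ x, 0 ≤ x → x ≤ 1 → evX f x = evX g x) : f = g := by
  ext z
  have := h z z.2.1 z.2.2
  rwa [evX_coe, evX_coe] at this

theorem evX_add (f g : X) (x : ℝ) : evX (f + g) x = evX f x + evX g x := rfl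
theorem evX_mul (f g : X) (x : ℝ) : evX (f * g) x = evX f x * evX g x := rfl
theorem evY_add (f g : Y) (x t : ℝ) : evY (f + g) x t = evY f x t + evY g x t := rfl
theorem evY_mul (f g : Y) (x t : ℝ) : evY (f * g) x t = evY f x t * evY g x t := rfl
theorem evY_smul (r : ℝ) (f : Y) (x t : ℝ) : evY (r • f) x t = r * evY f x t := rfl
theorem evY_pow (f : Y) (n : ℕ) (x t : ℝ) : evY (f ^ n) x t = evY f x t ^ n := by
  unfold evY
  rw [ContinuousMap.pow_apply]

theorem evY_w (y t : ℝ) (h0 : 0 ≤ t) (h1 : t ≤ Real.pi / 2) : evY w y t = Real.sin t := by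
  unfold evY w
  simp only [ContinuousMap.coe_mk]
  rw [projIcc_of_mem Th_le ⟨h0, h1⟩]

theorem evY_c (y t : ℝ) (h0 : 0 ≤ t) (h1 : t ≤ Real.pi / 2) : evY c y t = Real.cos t := by
  unfold evY c
  simp only [ContinuousMap.coe_mk]
  rw [projIcc_of_mem Th_le ⟨h0, h1⟩]

section

variable (f g : X) (y : ℝ)

/-- primitive of `v f(y v)` -/
noncomputable def RR (x : ℝ) : ℝ := ∫ v in (0 : ℝ)..x, v * evX f (y * v)

theorem cont_aux : Continuous fun v : ℝ => v * evX f (y * v) :=
  continuous_id.mul ((continuous_evX f).comp (continuous_const.mul continuous_id))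

theorem RR_deriv (x : ℝ) : HasDerivAt (RR f y) (x * evX f (y * x)) x :=
  intervalIntegral.integral_hasDerivAt_right ((cont_aux f y).intervalIntegrable _ _)
    ((cont_aux f y).stronglyMeasurableAtFilter _ _) (cont_aux f y).continuousAt

theorem RRcos_deriv (t : ℝ) : HasDerivAt (fun t => RR f y (Real.cos t))
    (-(evX f (y * Real.cos t) * Real.sin t * Real.cos t)) t := by
  have h1 := (RR_deriv f y (Real.cos t)).comp t (Real.hasDerivAt_cos t)
  refine h1.congr_deriv ?_
  ring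

theorem RR_zero : RR f y 0 = 0 := by
  unfold RR
  simp

theorem RR_b (O : Ops) (hy0 : 0 ≤ y) (hy1 : y ≤ 1) (x : ℝ) (hx0 : 0 ≤ x) (hx1 : x ≤ 1) :
    RR f y x = x ^ 2 * evX (O.b f) (y * x) := by
  rw [O.b_ev f (y * x) (mul_nonneg hy0 hx0) (mul_le_one₀ hy1 hx0 hx1)]
  unfold RR
  have h1 := intervalIntegral.smul_integral_comp_mul_left (a := (0 : ℝ)) (b := 1)
    (fun v : ℝ => v * evX f (y * v)) x
  rw [mul_zero, mul_one, smul_eq_mul] at h1
  have h2 : x * (∫ u in (0 : ℝ)..1, u * evX f (y * x * u)) =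
      ∫ u in (0 : ℝ)..1, x * u * evX f (y * (x * u)) := by
    rw [← intervalIntegral.integral_const_mul]
    refine intervalIntegral.integral_congr fun u _ => ?_
    try simp only
    rw [mul_assoc x u, mul_assoc y x u]
  rw [← h1, ← h2]
  ring

theorem cos_mem {t : ℝ} (h0 : 0 ≤ t) (h1 : t ≤ Real.pi / 2) :
    0 ≤ Real.cos t ∧ Real.cos t ≤ 1 :=
  ⟨Real.cos_nonneg_of_mem_Icc ⟨by linarith, h1⟩, Real.cos_le_one t⟩

/-- `∫_t^{π/2} F sin cos = cos² t b_f(y cos t)` -/
theorem L2 (O : Ops) (hy0 : 0 ≤ y) (hy1 : y ≤ 1) {t : ℝ} (h0 : 0 ≤ t) (h1 : t ≤ Real.pi / 2) :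
    (∫ s in t..(Real.pi / 2), evX f (y * Real.cos s) * Real.sin s * Real.cos s)
      = Real.cos t ^ 2 * evX (O.b f) (y * Real.cos t) := by
  have hc : Continuous fun s : ℝ => -(evX f (y * Real.cos s) * Real.sin s * Real.cos s) :=
    ((((continuous_evX f).comp (continuous_const.mul Real.continuous_cos)).mul
      Real.continuous_sin).mul Real.continuous_cos).neg
  have h2 := intervalIntegral.integral_eq_sub_of_hasDerivAt
    (fun s (_ : s ∈ uIcc t (Real.pi / 2)) => RRcos_deriv f y s) (hc.intervalIntegrable _ _)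
  rw [intervalIntegral.integral_neg, Real.cos_pi_div_two, RR_zero, zero_sub, neg_inj] at h2
  rw [h2]
  exact RR_b f y O hy0 hy1 _ (cos_mem h0 h1).1 (cos_mem h0 h1).2

/-- the primitive of `sin² F` -/
noncomputable def SS (t : ℝ) : ℝ :=
  ∫ s in (0 : ℝ)..t, Real.sin s ^ 2 * evX f (y * Real.cos s)

theorem cont_aux2 : Continuous fun s : ℝ => Real.sin s ^ 2 * evX f (y * Real.cos s) :=
  (Real.continuous_sin.pow 2).mul
    ((continuous_evX f).comp (continuous_const.mul Real.continuous_cos))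

theorem SS_deriv (t : ℝ) : HasDerivAt (SS f y) (Real.sin t ^ 2 * evX f (y * Real.cos t)) t :=
  intervalIntegral.integral_hasDerivAt_right ((cont_aux2 f y).intervalIntegrable _ _)
    ((cont_aux2 f y).stronglyMeasurableAtFilter _ _) (cont_aux2 f y).continuousAt

/-- integration by parts -/
theorem L1 (O : Ops) (hy0 : 0 ≤ y) (hy1 : y ≤ 1) :
    (∫ t in (0 : ℝ)..(Real.pi / 2), evX g (y * Real.cos t) * Real.sin t * Real.cos t * SS f y t)
      = ∫ t in (0 : ℝ)..(Real.pi / 2), Real.sin t ^ 2 * Real.cos t ^ 2 *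
        (evX f (y * Real.cos t) * evX (O.b g) (y * Real.cos t)) := by
  have hc : Continuous fun s : ℝ => -(evX g (y * Real.cos s) * Real.sin s * Real.cos s) :=
    ((((continuous_evX g).comp (continuous_const.mul Real.continuous_cos)).mul
      Real.continuous_sin).mul Real.continuous_cos).neg
  have h2 := intervalIntegral.integral_mul_deriv_eq_deriv_mul (a := 0) (b := Real.pi / 2)
    (u := fun t => RR g y (Real.cos t)) (v := SS f y)
    (fun s _ => RRcos_deriv g y s) (fun s _ => SS_deriv f y s) (hc.intervalIntegrable _ _)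
    ((cont_aux2 f y).intervalIntegrable _ _)
  have hS0 : SS f y 0 = 0 := by
    unfold SS
    simp
  rw [Real.cos_pi_div_two, RR_zero, hS0, zero_mul, mul_zero, sub_zero, zero_sub,
    ← intervalIntegral.integral_neg] at h2
  have e1 : (∫ t in (0 : ℝ)..(Real.pi / 2),
      evX g (y * Real.cos t) * Real.sin t * Real.cos t * SS f y t) =
      ∫ x in (0 : ℝ)..(Real.pi / 2),
        -(-(evX g (y * Real.cos x) * Real.sin x * Real.cos x) * SS f y x) :=
    intervalIntegral.integral_congr fun t _ => by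
      try simp only
      ring
  rw [e1, ← h2]
  refine intervalIntegral.integral_congr fun t ht => ?_
  rw [uIcc_of_le Th_le] at ht
  try simp only
  rw [RR_b g y O hy0 hy1 _ (cos_mem ht.1 ht.2).1 (cos_mem ht.1 ht.2).2]
  ring

end

theorem P_ev (O : Ops) (h : X) (y : ℝ) (hy0 : 0 ≤ y) (hy1 : y ≤ 1) :
    evX (O.P h) y = 4 * ∫ t in (0 : ℝ)..(Real.pi / 2), Real.sin t ^ 2 * Real.cos t ^ 2 *
      evX h (y * Real.cos t) := by
  unfold Ops.P
  rw [O.W_ev, ← intervalIntegral.integral_const_mul]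
  refine intervalIntegral.integral_congr fun t ht => ?_
  rw [uIcc_of_le Th_le] at ht
  try simp only
  rw [evY_smul, evY_mul, evY_pow, evY_c y t ht.1 ht.2, O.lift_ev h y t hy0 hy1 ht.1 ht.2]
  ring

theorem kE_zero (O : Ops) (η : ℝ × Y → Y) (F : Y) (h : η (0, F) = -O.S3 F) :
    kE η (0, F) = (4 : ℝ) • (w ^ 2 * c * O.S3 F) := by
  unfold kE kapE di dd xi
  simp only [neg_zero, zero_smul, add_zero, h]
  rw [Ring.inverse_one]
  simp only [mul_one]
  have e : (2 : ℝ) • (-O.S3 F) + (2 : ℝ) • (-O.S3 F) = -((4 : ℝ) • O.S3 F) := by module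
  rw [e, mul_neg, neg_neg, mul_smul_comm]

theorem kH_zero (O : Ops) (η : ℝ × Y → Y) (F : Y) (h : η (0, F) = -O.S3 F) :
    kH O η (0, F) = (4 : ℝ) • (w ^ 2 * c * O.S3 F) + (4 : ℝ) • O.K (F * w * c) := by
  rw [← kE_zero O η F h]
  unfold kH kapH kE KK EE Ei Gam di dd rho rhoi
  simp only [neg_zero, zero_smul, add_zero, h]
  rw [Ring.inverse_one, NormedSpace.exp_zero]
  simp only [mul_one, one_mul, one_pow]
  module

theorem t_lead : P_lead := by
  intro O M e₀ η hη f hf
  set F : Y := O.lift f with hF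
  have hdom : ((0 : ℝ), F) ∈ dom e₀ M := by
    refine ⟨?_, (O.lift_norm f).trans_lt hf⟩
    simp only [abs_zero]
    exact hη.pos
  have h0 : η (0, F) = -O.S3 F := by
    have := hη.eqn _ hdom
    unfold EtaEq at this
    simp only [zero_smul, add_zero, mul_one, zero_div, sub_zero] at this
    exact this
  have hS : ∀ y t : ℝ, 0 ≤ y → y ≤ 1 → 0 ≤ t → t ≤ Real.pi / 2 →
      Real.sin t ^ 3 * evY (O.S3 F) y t = SS f y t := by
    intro y t hy0 hy1 ht0 ht1
    rw [O.S3_ev F y t ht0 ht1]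
    unfold SS
    refine intervalIntegral.integral_congr fun s hs => ?_
    rw [uIcc_of_le ht0] at hs
    try simp only
    rw [hF, O.lift_ev f y s hy0 hy1 hs.1 (hs.2.trans ht1)]
  have hK : ∀ y t : ℝ, 0 ≤ y → y ≤ 1 → 0 ≤ t → t ≤ Real.pi / 2 →
      evY (O.K (F * w * c)) y t = Real.cos t ^ 2 * evX (O.b f) (y * Real.cos t) := by
    intro y t hy0 hy1 ht0 ht1
    rw [O.K_ev _ y t ht0 ht1, ← L2 f y O hy0 hy1 ht0 ht1]
    refine intervalIntegral.integral_congr fun s hs => ?_
    rw [uIcc_of_le ht1] at hs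
    try simp only
    rw [evY_mul, evY_mul, evY_w y s (ht0.trans hs.1) hs.2, evY_c y s (ht0.trans hs.1) hs.2, hF,
      O.lift_ev f y s hy0 hy1 (ht0.trans hs.1) hs.2]
  have key : ∀ (g : X) (y : ℝ), 0 ≤ y → y ≤ 1 →
      (∫ s in (0 : ℝ)..(Real.pi / 2), Real.sin s ^ 2 *
        evY (O.lift g * ((4 : ℝ) • (w ^ 2 * c * O.S3 F))) y s) =
      evX (O.P (f * O.b g)) y := by
    intro g y hy0 hy1
    rw [P_ev O _ y hy0 hy1]
    simp only [evX_mul]
    rw [← L1 f g y O hy0 hy1, ← intervalIntegral.integral_const_mul]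
    refine intervalIntegral.integral_congr fun s hs => ?_
    rw [uIcc_of_le Th_le] at hs
    try simp only
    rw [evY_mul, evY_smul, evY_mul, evY_mul, evY_pow, evY_w y s hs.1 hs.2, evY_c y s hs.1 hs.2,
      O.lift_ev g y s hy0 hy1 hs.1 hs.2, ← hS y s hy0 hy1 hs.1 hs.2]
    ring
  refine ⟨?_, fun g => ?_⟩
  · unfold That
    refine extX fun y hy0 hy1 => ?_
    try simp only
    rw [kE_zero O η F h0, O.W_ev, hF, ← hF]
    exact key f y hy0 hy1
  · refine extX fun y hy0 hy1 => ?_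
    have e1 : O.P (f * O.b g + g * O.b f) = O.P (f * O.b g) + O.P (g * O.b f) := by
      unfold Ops.P
      rw [map_add, mul_add, smul_add, map_add]
    rw [kH_zero O η F h0, mul_add, map_add, e1, evX_add, evX_add, O.W_ev, key g y hy0 hy1]
    congr 1
    rw [O.W_ev, P_ev O _ y hy0 hy1, ← intervalIntegral.integral_const_mul]
    refine intervalIntegral.integral_congr fun s hs => ?_
    rw [uIcc_of_le Th_le] at hs
    try simp only
    rw [evY_mul, evY_smul, O.lift_ev g y s hy0 hy1 hs.1 hs.2, hK y s hy0 hy1 hs.1 hs.2, evX_mul]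
    ring

end Pool.Agent.W766.UniLead
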