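import Pool.Agent.W902.Z.Stm
import Pool.Agent.H554R2.Lin.Random

/-!
# Most random colourings give crossing feet
-/

set_option autoImplicit false

open Finset

namespace Pool.Agent.W766.ZCross

open Pool.Agent.H554R2.Sem Pool.Agent.H554R2.Coin Pool.Agent.H554R2.Lin Pool.Agent.H554R2.Rnd
open Pool.Agent.W902.Z

section

variable {n r q c : ℕ} (S : Fin n → Finset (Fin r))

/-- the elements of `A` all whose blocks have the colour `e` -/
def XX (A : Finset (Fin n)) (e : Fin q) (T : Fin r → Fin q) : ℕ :=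
  (A.filter fun v => ∀ j ∈ S v, T j = e).card

theorem xx_eq (A : Finset (Fin n)) (e : Fin q) (T : Fin r → Fin q) :
    ((XX S A e T : ℕ) : ℝ) = ∑ v ∈ A, if ∀ j ∈ S v, T j = e then (1 : ℝ) else 0 := by
  unfold XX
  rw [sum_boole]

theorem first (A : Finset (Fin n)) (e : Fin q) (hq : 0 < q) (hA : ∀ v ∈ A, (S v).card = c) :
    ∑ T : Fin r → Fin q, ((XX S A e T : ℕ) : ℝ) = (q : ℝ) ^ r * (A.card / (q : ℝ) ^ c) := by
  simp only [xx_eq]
  rw [sum_comm]
  have h1 : ∀ v ∈ A, (∑ T : Fin r → Fin q, if ∀ j ∈ S v, T j = e then (1 : ℝ) else 0) =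
      (q : ℝ) ^ r / (q : ℝ) ^ c := by
    intro v hv
    rw [← v4_indicator, ← hA v hv, ← v4_count hq (S v) (fun _ => e)]
  rw [sum_congr rfl h1, sum_const, nsmul_eq_mul]
  ring

theorem second (A : Finset (Fin n)) (e : Fin q) (hq : 0 < q) (hA : ∀ v ∈ A, (S v).card = c)
    (P : ℝ) (hP : ∑ v ∈ A, ((A.filter fun u => ¬ Disjoint (S u) (S v)).card : ℝ) ≤ P) :
    ∑ T : Fin r → Fin q, ((XX S A e T : ℕ) : ℝ) ^ 2 ≤
      (q : ℝ) ^ r * ((A.card / (q : ℝ) ^ c) ^ 2 + P) := by
  have hq1 : (1 : ℝ) ≤ q := by exact_mod_cast hq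
  have hsq : ∀ T : Fin r → Fin q, ((XX S A e T : ℕ) : ℝ) ^ 2 =
      ∑ v ∈ A, ∑ u ∈ A, if ((∀ j ∈ S v, T j = e) ∧ (∀ j ∈ S u, T j = e)) then (1 : ℝ) else 0 := by
    intro T
    rw [xx_eq, sq, sum_mul_sum]
    refine sum_congr rfl fun u _ => sum_congr rfl fun v _ => ?_
    rw [ite_zero_mul_ite_zero, mul_one]
  rw [sum_congr rfl (fun T _ => hsq T), sum_comm]
  have hpair : ∀ v ∈ A, ∀ u ∈ A, (∑ T : Fin r → Fin q,
      if ((∀ j ∈ S v, T j = e) ∧ (∀ j ∈ S u, T j = e)) then (1 : ℝ) else 0) ≤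
      (q : ℝ) ^ r * (1 / (q : ℝ) ^ c * (1 / (q : ℝ) ^ c) +
        (if ¬ Disjoint (S u) (S v) then (1 : ℝ) else 0)) := by
    intro v hv u hu
    have hcount : (∑ T : Fin r → Fin q,
        if ((∀ j ∈ S v, T j = e) ∧ (∀ j ∈ S u, T j = e)) then (1 : ℝ) else 0) =
        (q : ℝ) ^ r / (q : ℝ) ^ (S v ∪ S u).card := by
      rw [← v4_indicator, ← v4_count hq (S v ∪ S u) (fun _ => e)]
      congr 2
      ext T
      simp only [mem_filter, mem_univ, true_and, mem_union]
      constructor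
      · rintro ⟨h1, h2⟩ j (hj | hj)
        · exact h1 j hj
        · exact h2 j hj
      · intro h
        exact ⟨fun j hj => h j (Or.inl hj), fun j hj => h j (Or.inr hj)⟩
    rw [hcount]
    have hN : (0 : ℝ) ≤ (q : ℝ) ^ r := by positivity
    by_cases hdis : Disjoint (S u) (S v)
    · rw [card_union_of_disjoint hdis.symm, hA v hv, hA u hu, pow_add, if_neg (not_not.2 hdis)]
      apply le_of_eq
      field_simp
      ring
    · rw [if_pos hdis]
      have h2 : (q : ℝ) ^ r / (q : ℝ) ^ (S v ∪ S u).card ≤ (q : ℝ) ^ r :=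
        div_le_self hN (one_le_pow₀ hq1)
      have h3 : (0 : ℝ) ≤ 1 / (q : ℝ) ^ c * (1 / (q : ℝ) ^ c) := by positivity
      calc (q : ℝ) ^ r / (q : ℝ) ^ (S v ∪ S u).card ≤ (q : ℝ) ^ r * 1 := by linarith
        _ ≤ _ := mul_le_mul_of_nonneg_left (by linarith) hN
  calc ∑ v ∈ A, ∑ T : Fin r → Fin q, ∑ u ∈ A,
        (if ((∀ j ∈ S v, T j = e) ∧ (∀ j ∈ S u, T j = e)) then (1 : ℝ) else 0)
      = ∑ v ∈ A, ∑ u ∈ A, ∑ T : Fin r → Fin q,
        (if ((∀ j ∈ S v, T j = e) ∧ (∀ j ∈ S u, T j = e)) then (1 : ℝ) else 0) :=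
        sum_congr rfl fun u _ => sum_comm
    _ ≤ ∑ v ∈ A, ∑ u ∈ A, (q : ℝ) ^ r * (1 / (q : ℝ) ^ c * (1 / (q : ℝ) ^ c) +
        (if ¬ Disjoint (S u) (S v) then (1 : ℝ) else 0)) :=
        sum_le_sum fun v hv => sum_le_sum fun u hu => hpair v hv u hu
    _ = (q : ℝ) ^ r * ((A.card / (q : ℝ) ^ c) ^ 2 +
        ∑ v ∈ A, ((A.filter fun u => ¬ Disjoint (S u) (S v)).card : ℝ)) := by
        simp only [← mul_sum, sum_add_distrib]
        congr 2
        · rw [sum_const, sum_const, nsmul_eq_mul, nsmul_eq_mul]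
          ring
        · refine sum_congr rfl fun v _ => ?_
          rw [sum_boole]
    _ ≤ _ := by
        apply mul_le_mul_of_nonneg_left _ (by positivity)
        linarith

theorem var (A : Finset (Fin n)) (e : Fin q) (hq : 0 < q) (hA : ∀ v ∈ A, (S v).card = c)
    (P : ℝ) (hP : ∑ v ∈ A, ((A.filter fun u => ¬ Disjoint (S u) (S v)).card : ℝ) ≤ P) :
    ∑ T : Fin r → Fin q, (((XX S A e T : ℕ) : ℝ) - A.card / (q : ℝ) ^ c) ^ 2 ≤
      (q : ℝ) ^ r * P := by
  have h1 := first (c := c) S A e hq hA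
  have h2 := second (c := c) S A e hq hA P hP
  have e1 : ∀ T : Fin r → Fin q, (((XX S A e T : ℕ) : ℝ) - A.card / (q : ℝ) ^ c) ^ 2 =
      ((XX S A e T : ℕ) : ℝ) ^ 2 - 2 * (A.card / (q : ℝ) ^ c) * ((XX S A e T : ℕ) : ℝ) +
        (A.card / (q : ℝ) ^ c) ^ 2 := fun T => by ring
  rw [sum_congr rfl (fun T _ => e1 T), sum_add_distrib, sum_sub_distrib, ← mul_sum, h1,
    sum_const, card_univ, Fintype.card_fun, Fintype.card_fin, Fintype.card_fin, nsmul_eq_mul]
  push_cast
  nlinarith [h2]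

/-- Chebyshev's inequality -/
theorem cheb (A : Finset (Fin n)) (e : Fin q) (hq : 0 < q) (hA : ∀ v ∈ A, (S v).card = c)
    (hA0 : 0 < A.card) (K : ℝ)
    (hP : ∑ v ∈ A, ((A.filter fun u => ¬ Disjoint (S u) (S v)).card : ℝ) ≤
      K / (q : ℝ) ^ c * (A.card : ℝ) ^ 2) :
    ((univ.filter fun T : Fin r → Fin q =>
      ((XX S A e T : ℕ) : ℝ) < A.card / (2 * (q : ℝ) ^ c)).card : ℝ) ≤
      (q : ℝ) ^ r * (4 * K * (q : ℝ) ^ c) := by
  have hv := var (c := c) S A e hq hA _ hP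
  have hq0 : (0 : ℝ) < q := by exact_mod_cast hq
  have hA1 : (0 : ℝ) < A.card := by exact_mod_cast hA0
  set μ : ℝ := A.card / (2 * (q : ℝ) ^ c) with hμ
  have hμ0 : 0 < μ := by positivity
  have h1 : μ ^ 2 * ((univ.filter fun T : Fin r → Fin q => ((XX S A e T : ℕ) : ℝ) < μ).card : ℝ) ≤
      ∑ T : Fin r → Fin q, (((XX S A e T : ℕ) : ℝ) - A.card / (q : ℝ) ^ c) ^ 2 := by
    calc μ ^ 2 * ((univ.filter fun T : Fin r → Fin q => ((XX S A e T : ℕ) : ℝ) < μ).card : ℝ)
        = ∑ _T ∈ univ.filter (fun T : Fin r → Fin q => ((XX S A e T : ℕ) : ℝ) < μ), μ ^ 2 := by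
          rw [sum_const, nsmul_eq_mul, mul_comm]
      _ ≤ ∑ T ∈ univ.filter (fun T : Fin r → Fin q => ((XX S A e T : ℕ) : ℝ) < μ),
          (((XX S A e T : ℕ) : ℝ) - A.card / (q : ℝ) ^ c) ^ 2 := by
          refine sum_le_sum fun T hT => ?_
          have hT1 := (mem_filter.1 hT).2
          have e2 : (A.card : ℝ) / (q : ℝ) ^ c = 2 * μ := by
            rw [hμ]; field_simp
          rw [e2]
          nlinarith
      _ ≤ _ := sum_le_sum_of_subset_of_nonneg (subset_univ _) fun T _ _ => sq_nonneg _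
  have h2 := h1.trans hv
  have h3 : μ ^ 2 * ((univ.filter fun T : Fin r → Fin q =>
      ((XX S A e T : ℕ) : ℝ) < μ).card : ℝ) ≤ μ ^ 2 * ((q : ℝ) ^ r * (4 * K * (q : ℝ) ^ c)) := by
    refine h2.trans (le_of_eq ?_)
    rw [hμ]
    field_simp
    ring
  exact le_of_mul_le_mul_left h3 (by positivity)

end

theorem kind0 {r q : ℕ} (hq : 3 ≤ q) (T : Fin r → Fin q) (j : Fin r) :
    kind T j = 0 ↔ T j = ⟨0, by omega⟩ := by
  unfold kind
  rw [Fin.ext_iff (a := T j)]
  simp only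
  split_ifs with h1 h2
  · simp [h1]
  · simp [h1]
  · simp [h1]

theorem kind1 {r q : ℕ} (hq : 3 ≤ q) (T : Fin r → Fin q) (j : Fin r) :
    kind T j = 1 ↔ T j = ⟨1, by omega⟩ := by
  unfold kind
  rw [Fin.ext_iff (a := T j)]
  simp only
  split_ifs with h1 h2
  · simp [h1]
  · simp [h2]
  · simp [h2]

set_option maxHeartbeats 2000000 in
theorem main : TaskCross := by
  classical
  intro n r q c L t0 H lam ω _ _ lab S Gd Wo σ hq hc hH hlam hn hσ0 hGc hcnt hnH hσ hL h8 h128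
  have hq0 : 0 < q := by omega
  have hqR : (0 : ℝ) < q := by exact_mod_cast hq0
  have hq1 : (1 : ℝ) ≤ q := by exact_mod_cast hq0
  have hqc : (0 : ℝ) < (q : ℝ) ^ c := by positivity
  have hnR : (1 : ℝ) ≤ n := by exact_mod_cast hn
  have hHR : (1 : ℝ) ≤ H := by exact_mod_cast hH
  have hlamR : (1 : ℝ) ≤ lam := by exact_mod_cast hlam
  set w : ℕ := Fintype.card ω with hw
  clear_value w
  -- nonempty
  have hC0 : 0 < cnt S c := by
    rcases Nat.eq_zero_or_pos (cnt S c) with h | h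
    · rw [h] at hnH
      simp at hnH
      omega
    · exact h
  have hG0 : 0 < Gd.card := by omega
  obtain ⟨v0, hv0⟩ := card_pos.1 hG0
  have hw0 : 0 < w := hw ▸ Fintype.card_pos_iff.2 ⟨Wo v0⟩
  have hwR : (1 : ℝ) ≤ w := by exact_mod_cast hw0
  -- pigeonhole
  obtain ⟨W, hW⟩ : ∃ W : ω, Gd.card ≤ w * (Gd.filter fun v => Wo v = W).card := by
    by_contra hcon
    push Not at hcon
    have h1 : Gd.card = ∑ W : ω, (Gd.filter fun v => Wo v = W).card :=
      card_eq_sum_card_fiberwise (fun v _ => mem_univ _)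
    have h2 : ∑ W : ω, w * (Gd.filter fun v => Wo v = W).card < ∑ _W : ω, Gd.card :=
      sum_lt_sum_of_nonempty ⟨Wo v0, mem_univ _⟩ fun W _ => hcon W
    rw [← mul_sum, ← h1, sum_const, card_univ, smul_eq_mul, ← hw] at h2
    exact lt_irrefl _ h2
  set U := Gd.filter fun v => Wo v = W with hU
  have hU0 : 0 < U.card := by
    rcases Nat.eq_zero_or_pos U.card with h | h
    · rw [h] at hW; omega
    · exact h
  have hUR : (0 : ℝ) < U.card := by exact_mod_cast hU0
  set A : Fin n → Finset (Fin n) := fun o => U.filter fun v => lab W v = o with hAdef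
  set m : Fin n → ℕ := fun o => (A o).card with hm
  set N : Fin n → ℕ := fun o => nb (lab W) univ o with hN
  have hsm : ∑ o, m o = U.card := (card_eq_sum_card_fiberwise (fun v _ => mem_univ _)).symm
  have hsN : ∑ o, N o = n := by
    have h1 : (univ : Finset (Fin n)).card = ∑ o, N o :=
      card_eq_sum_card_fiberwise (fun v _ => mem_univ _)
    rw [card_univ, Fintype.card_fin] at h1
    exact h1.symm
  set DD : Finset (Fin n) := univ.filter fun o => 0 < m o ∧ U.card * N o ≤ 2 * n * m o with hDD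
  set M : ℕ := ∑ o ∈ DD, m o with hM
  clear_value M
  have hM1 : U.card ≤ 2 * M := by
    have h1 : ∑ o ∈ univ.filter (fun o => ¬ (0 < m o ∧ U.card * N o ≤ 2 * n * m o)),
        2 * n * m o ≤ ∑ o ∈ univ.filter (fun o => ¬ (0 < m o ∧ U.card * N o ≤ 2 * n * m o)),
        U.card * N o := by
      refine sum_le_sum fun o ho => ?_
      have h2 := (mem_filter.1 ho).2
      rcases Nat.eq_zero_or_pos (m o) with h3 | h3
      · rw [h3]; simp
      · by_contra h4
        exact h2 ⟨h3, by omega⟩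
    have h2 : ∑ o ∈ univ.filter (fun o => ¬ (0 < m o ∧ U.card * N o ≤ 2 * n * m o)),
        U.card * N o ≤ U.card * n := by
      rw [← mul_sum]
      apply Nat.mul_le_mul_left
      exact (sum_le_sum_of_subset (filter_subset _ _)).trans hsN.le
    have h3 : M + ∑ o ∈ univ.filter (fun o => ¬ (0 < m o ∧ U.card * N o ≤ 2 * n * m o)), m o =
        U.card := by
      rw [hM, hDD, sum_filter_add_sum_filter_not, hsm]
    rw [← mul_sum] at h1
    set M' := ∑ o ∈ univ.filter (fun o => ¬ (0 < m o ∧ U.card * N o ≤ 2 * n * m o)), m o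
    have h4 : n * (2 * M') ≤ n * U.card := by nlinarith
    have h5 : 2 * M' ≤ U.card := Nat.le_of_mul_le_mul_left h4 (by omega)
    omega
  have hMR : (U.card : ℝ) ≤ 2 * M := by exact_mod_cast hM1
  have hM0 : (0 : ℝ) < M := by linarith
  have hnU : (n : ℝ) * (q : ℝ) ^ c ≤ 2 * w * H * U.card := by
    have h1 : (cnt S c : ℝ) ≤ 2 * Gd.card := by exact_mod_cast hcnt
    have h2 : (Gd.card : ℝ) ≤ w * U.card := by exact_mod_cast hW
    have h3 : (n : ℝ) * (q : ℝ) ^ c ≤ H * cnt S c := by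
      have := mul_le_mul_of_nonneg_right hnH hqc.le
      rwa [mul_assoc, div_mul_cancel₀ _ hqc.ne'] at this
    calc (n : ℝ) * (q : ℝ) ^ c ≤ H * cnt S c := h3
      _ ≤ H * (2 * (w * U.card)) := by
        apply mul_le_mul_of_nonneg_left _ (by linarith)
        linarith
      _ = _ := by ring
  -- dense labels
  have hDN : ∀ o ∈ DD, (N o : ℝ) * (q : ℝ) ^ c ≤ 4 * w * H * m o := by
    intro o ho
    have h1 := (mem_filter.1 ho).2.2
    have h2 : (U.card : ℝ) * N o ≤ 2 * n * m o := by exact_mod_cast h1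
    have hm0 : (0 : ℝ) ≤ m o := Nat.cast_nonneg _
    have h3 : (U.card : ℝ) * ((N o : ℝ) * (q : ℝ) ^ c) ≤ U.card * (4 * w * H * m o) := by
      calc (U.card : ℝ) * ((N o : ℝ) * (q : ℝ) ^ c) = (U.card * N o) * (q : ℝ) ^ c := by ring
        _ ≤ (2 * n * m o) * (q : ℝ) ^ c := mul_le_mul_of_nonneg_right h2 hqc.le
        _ = (2 * m o) * (n * (q : ℝ) ^ c) := by ring
        _ ≤ (2 * m o) * (2 * w * H * U.card) := mul_le_mul_of_nonneg_left hnU (by positivity)
        _ = _ := by ring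
    exact le_of_mul_le_mul_left h3 hUR
  have hmem : ∀ o v, v ∈ A o → v ∈ Gd ∧ Wo v = W ∧ lab W v = o := by
    intro o v hv
    have h1 := mem_filter.1 hv
    have h2 := mem_filter.1 h1.1
    exact ⟨h2.1, h2.2, h1.2⟩
  have hDL : ∀ o ∈ DD, (L : ℝ) ≤ N o := by
    intro o ho
    have h1 := (mem_filter.1 ho).2.1
    obtain ⟨v, hv⟩ := card_pos.1 h1
    obtain ⟨h2, h3, h4⟩ := hmem o v hv
    have h5 := hL v h2
    rw [h3, h4] at h5
    exact_mod_cast h5
  -- probabilities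
  set K : ℝ := 4 * w * H * σ with hK
  have hK0 : 0 ≤ K := by positivity
  clear_value K
  have hch : ∀ o ∈ DD, ∀ e : Fin q, ((univ.filter fun T : Fin r → Fin q =>
      ((XX S (A o) e T : ℕ) : ℝ) < m o / (2 * (q : ℝ) ^ c)).card : ℝ) ≤
      (q : ℝ) ^ r * (4 * K * (q : ℝ) ^ c) := by
    intro o ho e
    refine cheb (c := c) S (A o) e hq0 (fun v hv => hGc v (hmem o v hv).1)
      (mem_filter.1 ho).2.1 K ?_
    have h1 : ∀ v ∈ A o, ((((A o).filter fun u => ¬ Disjoint (S u) (S v)).card : ℕ) : ℝ) ≤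
        σ * N o := by
      intro v hv
      obtain ⟨h2, h3, h4⟩ := hmem o v hv
      have h5 := hσ v h2
      rw [h3, h4] at h5
      refine le_trans ?_ h5
      norm_cast
      apply card_le_card
      intro u hu
      rw [mem_filter] at hu ⊢
      exact ⟨mem_univ _, (hmem o u hu.1).2.2, hu.2⟩
    calc ∑ v ∈ A o, ((((A o).filter fun u => ¬ Disjoint (S u) (S v)).card : ℕ) : ℝ)
        ≤ ∑ _v ∈ A o, σ * N o := sum_le_sum h1
      _ = m o * (σ * N o) := by rw [sum_const, nsmul_eq_mul]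
      _ ≤ m o * (σ * (4 * w * H * m o / (q : ℝ) ^ c)) := by
        apply mul_le_mul_of_nonneg_left _ (Nat.cast_nonneg _)
        apply mul_le_mul_of_nonneg_left _ hσ0
        rw [le_div_iff₀ hqc]
        exact hDN o ho
      _ = K / (q : ℝ) ^ c * ((A o).card : ℝ) ^ 2 := by
        rw [hK]
        ring
  let e0 : Fin q := ⟨0, by omega⟩
  let e1 : Fin q := ⟨1, by omega⟩
  set Bad : Fin n → (Fin r → Fin q) → Prop := fun o T =>
    ((XX S (A o) e0 T : ℕ) : ℝ) < m o / (2 * (q : ℝ) ^ c) ∨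
    ((XX S (A o) e1 T : ℕ) : ℝ) < m o / (2 * (q : ℝ) ^ c) with hBad
  have hbad : ∀ o ∈ DD, ((univ.filter fun T => Bad o T).card : ℝ) ≤
      (q : ℝ) ^ r * (8 * K * (q : ℝ) ^ c) := by
    intro o ho
    have h1 : ((univ.filter fun T => Bad o T).card : ℝ) ≤
        ((univ.filter fun T : Fin r → Fin q =>
          ((XX S (A o) e0 T : ℕ) : ℝ) < m o / (2 * (q : ℝ) ^ c)).card : ℝ) +
        ((univ.filter fun T : Fin r → Fin q =>
          ((XX S (A o) e1 T : ℕ) : ℝ) < m o / (2 * (q : ℝ) ^ c)).card : ℝ) := by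
      refine le_trans (Nat.cast_le.2 (?_ : _ ≤ _ + _)) (Nat.cast_add _ _).le
      refine le_trans (card_le_card ?_) (card_union_le _ _)
      intro T hT
      rw [mem_union, mem_filter, mem_filter]
      rcases (mem_filter.1 hT).2 with h | h
      · exact Or.inl ⟨mem_univ _, h⟩
      · exact Or.inr ⟨mem_univ _, h⟩
    have h2 := hch o ho e0
    have h3 := hch o ho e1
    linarith
  set Y : (Fin r → Fin q) → ℝ := fun T => ∑ o ∈ DD, if Bad o T then (m o : ℝ) else 0 with hY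
  have hY0 : ∀ T, 0 ≤ Y T := fun T => sum_nonneg fun o _ => by
    split_ifs
    · exact Nat.cast_nonneg _
    · exact le_rfl
  have hYs : ∑ T, Y T ≤ (q : ℝ) ^ r * (M * (8 * K * (q : ℝ) ^ c)) := by
    rw [hY]
    simp only
    rw [sum_comm]
    calc ∑ o ∈ DD, ∑ T, (if Bad o T then (m o : ℝ) else 0)
        = ∑ o ∈ DD, (m o : ℝ) * ((univ.filter fun T => Bad o T).card : ℝ) := by
          refine sum_congr rfl fun o _ => ?_
          rw [← sum_filter, sum_const, nsmul_eq_mul, mul_comm]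
      _ ≤ ∑ o ∈ DD, (m o : ℝ) * ((q : ℝ) ^ r * (8 * K * (q : ℝ) ^ c)) :=
          sum_le_sum fun o ho => mul_le_mul_of_nonneg_left (hbad o ho) (Nat.cast_nonneg _)
      _ = _ := by
          rw [← sum_mul, hM]
          push_cast
          ring
  have hmk := v4_markov Y hY0 (N := (q : ℝ) ^ r) (m := M * (8 * K * (q : ℝ) ^ c))
    (k := 2 * lam) (pow_nonneg hqR.le _)
    (mul_nonneg (Nat.cast_nonneg _) (mul_nonneg (mul_nonneg (by norm_num) hK0) hqc.le))
    (by linarith) hYs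
  have hkm : 2 * lam * (M * (8 * K * (q : ℝ) ^ c)) ≤ (M : ℝ) / 2 := by
    have h1 : (q : ℝ) ^ c ≤ (q : ℝ) ^ (2 * c) := pow_le_pow_right₀ hq1 (by omega)
    have h2 : 128 * lam * σ * (q : ℝ) ^ c * w * H ≤ 1 := by
      refine le_trans ?_ h128
      have : 0 ≤ 128 * lam * σ := by positivity
      have h3 : 128 * lam * σ * (q : ℝ) ^ c ≤ 128 * lam * σ * (q : ℝ) ^ (2 * c) :=
        mul_le_mul_of_nonneg_left h1 this
      have h4 := mul_le_mul_of_nonneg_right h3 (show (0 : ℝ) ≤ w by positivity)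
      exact mul_le_mul_of_nonneg_right h4 (by positivity)
    calc 2 * lam * (M * (8 * K * (q : ℝ) ^ c))
        = M / 2 * (128 * lam * σ * (q : ℝ) ^ c * w * H) := by rw [hK]; ring
      _ ≤ M / 2 * 1 := mul_le_mul_of_nonneg_left h2 (by positivity)
      _ = M / 2 := mul_one _
  -- good colourings
  have hgood : ∀ T : Fin r → Fin q, Y T ≤ M / 2 →
      Crs lab t0 (hat S (kind T) 0) (hat S (kind T) 1) (cnt S c / (q : ℝ) ^ c / (16 * w)) := by
    intro T hT
    set O : Finset (Fin n) := DD.filter fun o => ¬ Bad o T with hO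
    have hsum : (M : ℝ) / 2 ≤ ∑ o ∈ O, (m o : ℝ) := by
      have h1 : ∑ o ∈ DD.filter (fun o => Bad o T), (m o : ℝ) + ∑ o ∈ O, (m o : ℝ) = M := by
        rw [hO, sum_filter_add_sum_filter_not, hM]
        push_cast
        rfl
      have h2 : ∑ o ∈ DD.filter (fun o => Bad o T), (m o : ℝ) = Y T := by
        rw [sum_filter]
      linarith
    have hX : ∀ o ∈ O, (m o : ℝ) / (2 * (q : ℝ) ^ c) ≤ nb (lab W) (hat S (kind T) 0) o ∧
        (m o : ℝ) / (2 * (q : ℝ) ^ c) ≤ nb (lab W) (hat S (kind T) 1) o := by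
      intro o ho
      have h1 := (mem_filter.1 ho).2
      rw [hBad] at h1
      simp only [not_or, not_lt] at h1
      refine ⟨h1.1.trans ?_, h1.2.trans ?_⟩
      · norm_cast
        unfold XX nb
        apply card_le_card
        intro v hv
        rw [mem_filter] at hv ⊢
        refine ⟨?_, (hmem o v hv.1).2.2⟩
        unfold hat
        rw [mem_filter]
        exact ⟨mem_univ _, fun j hj => (kind0 hq T j).2 (hv.2 j hj)⟩
      · norm_cast
        unfold XX nb
        apply card_le_card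
        intro v hv
        rw [mem_filter] at hv ⊢
        refine ⟨?_, (hmem o v hv.1).2.2⟩
        unfold hat
        rw [mem_filter]
        exact ⟨mem_univ _, fun j hj => (kind1 hq T j).2 (hv.2 j hj)⟩
    have ht : ∀ o ∈ O, (t0 : ℝ) ≤ (m o : ℝ) / (2 * (q : ℝ) ^ c) := by
      intro o ho
      have ho' := (mem_filter.1 ho).1
      have h1 := hDN o ho'
      have h2 := hDL o ho'
      have h3 : (8 : ℝ) * w * H * t0 ≤ L := by exact_mod_cast h8
      rw [le_div_iff₀ (by positivity)]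
      have hpos : (0 : ℝ) < 4 * w * H := by positivity
      have h4 : (4 * w * H) * (t0 * (2 * (q : ℝ) ^ c)) ≤ (4 * w * H) * (m o : ℝ) := by
        calc (4 * w * H) * (t0 * (2 * (q : ℝ) ^ c)) = (8 * w * H * t0) * (q : ℝ) ^ c := by ring
          _ ≤ L * (q : ℝ) ^ c := mul_le_mul_of_nonneg_right h3 hqc.le
          _ ≤ N o * (q : ℝ) ^ c := mul_le_mul_of_nonneg_right h2 hqc.le
          _ ≤ _ := h1
      exact le_of_mul_le_mul_left h4 hpos
    refine ⟨W, O, fun o ho => ?_, ?_⟩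
    · have h1 := ht o ho
      have h2 := hX o ho
      exact ⟨by exact_mod_cast h1.trans h2.1, by exact_mod_cast h1.trans h2.2⟩
    · push_cast
      have h1 : ∑ o ∈ O, (m o : ℝ) / (2 * (q : ℝ) ^ c) ≤
          ∑ o ∈ O, min ((nb (lab W) (hat S (kind T) 0) o : ℕ) : ℝ)
            ((nb (lab W) (hat S (kind T) 1) o : ℕ) : ℝ) :=
        sum_le_sum fun o ho => le_min (hX o ho).1 (hX o ho).2
      refine le_trans ?_ h1
      rw [← sum_div]
      have h2 : (Gd.card : ℝ) ≤ w * U.card := by exact_mod_cast hW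
      have h3 : (cnt S c : ℝ) ≤ 2 * Gd.card := by exact_mod_cast hcnt
      have h4 : (cnt S c : ℝ) ≤ 8 * w * ∑ o ∈ O, (m o : ℝ) := by nlinarith
      rw [div_div, div_le_div_iff₀ (by positivity) (by positivity)]
      nlinarith [mul_le_mul_of_nonneg_right h4 (show (0 : ℝ) ≤ 2 * (q : ℝ) ^ c by positivity)]
  -- conclusion
  have hfin : (2 * lam * Nat.card {T : Fin r → Fin q //
      ¬ Crs lab t0 (hat S (kind T) 0) (hat S (kind T) 1)
        (cnt S c / (q : ℝ) ^ c / (16 * w))} : ℝ) ≤ (q : ℝ) ^ r := by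
    refine le_trans ?_ hmk
    apply mul_le_mul_of_nonneg_left _ (by positivity)
    rw [Nat.card_eq_fintype_card, Fintype.card_subtype]
    refine Nat.cast_le.2 (card_le_card ?_)
    intro T hT
    rw [mem_filter] at hT ⊢
    refine ⟨mem_univ _, ?_⟩
    by_contra hcon
    exact hT.2 (hgood T ((not_lt.1 hcon).trans hkm))
  exact_mod_cast hfin

end Pool.Agent.W766.ZCross
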